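import Mathlib

/-!
Uncountable families of finite partial functions into a countable set have uncountable subfamilies
of pairwise compatible members.
-/

set_option autoImplicit false

namespace Pool.Agent.Helper79K.DS

open Set

/-- a map from an uncountable set to a countable type has an uncountable fibre -/
theorem exists_fiber {W : Type*} {D : Type*} [Countable D] {S : Set W} (hS : ¬ S.Countable)
    (f : W → D) : ∃ d, ¬ {w ∈ S | f w = d}.Countable := by
  by_contra hcon
  push Not at hcon
  apply hS
  have h1 : S ⊆ ⋃ d, {w ∈ S | f w = d} := fun w hw => mem_iUnion.2 ⟨f w, hw, rfl⟩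
  exact (countable_iUnion hcon).mono h1

theorem knaster_aux {W T C : Type*} [DecidableEq T] [Countable C] (c : W → T → C) (n : ℕ) :
    ∀ (supp : W → Finset T) (S : Set W), ¬ S.Countable → (∀ w ∈ S, (supp w).card = n) →
      ∃ S' ⊆ S, ¬ S'.Countable ∧ ∀ i ∈ S', ∀ j ∈ S', ∀ t ∈ supp i, t ∈ supp j → c i t = c j t := by
  induction n with
  | zero =>
    intro supp S hS hcard
    refine ⟨S, Subset.rfl, hS, fun i hi j _ t ht => ?_⟩
    have := hcard i hi
    rw [Finset.card_eq_zero] at this
    rw [this] at ht
    exact absurd ht (Finset.notMem_empty t)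
  | succ n ih =>
    intro supp S hS hcard
    obtain ⟨A, hA⟩ : ∃ A, Maximal (fun A : Set W => A ⊆ S ∧
        ∀ i ∈ A, ∀ j ∈ A, i ≠ j → Disjoint (supp i) (supp j)) A := by
      refine zorn_subset _ fun ch hch hchain => ?_
      refine ⟨⋃₀ ch, ⟨sUnion_subset fun s hs => (hch hs).1, ?_⟩, fun s hs => subset_sUnion_of_mem hs⟩
      rintro i ⟨s, hs, his⟩ j ⟨t, ht, hjt⟩ hij
      rcases hchain.total hs ht with h | h
      · exact (hch ht).2 i (h his) j hjt hij
      · exact (hch hs).2 i his j (h hjt) hij
    by_cases hAc : A.Countable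
    · set U : Set T := ⋃ i ∈ A, (supp i : Set T) with hU
      have hUc : U.Countable := hAc.biUnion fun i _ => (supp i).countable_toSet
      have hmeet : ∀ w ∈ S, ∃ t ∈ supp w, t ∈ U := by
        intro w hw
        by_contra hcon
        push Not at hcon
        have hdis : ∀ i ∈ A, Disjoint (supp w) (supp i) := by
          intro i hi
          rw [Finset.disjoint_left]
          intro t ht ht'
          exact hcon t ht (mem_iUnion₂.2 ⟨i, hi, ht'⟩)
        have hwA : w ∈ A := by
          have h2 : insert w A ⊆ A := by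
            refine hA.2 ⟨insert_subset hw hA.1.1, ?_⟩ (subset_insert w A)
            rintro i (rfl | hi) j (rfl | hj) hij
            · exact absurd rfl hij
            · exact hdis j hj
            · exact (hdis i hi).symm
            · exact hA.1.2 i hi j hj hij
          exact h2 (mem_insert w A)
        have hne : (supp w).Nonempty := by
          rw [← Finset.card_pos, hcard w hw]
          exact Nat.succ_pos n
        obtain ⟨t, ht⟩ := hne
        exact hcon t ht (mem_iUnion₂.2 ⟨w, hwA, ht⟩)
      have : Countable U := hUc.to_subtype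
      classical
      let f : W → Option (U × C) := fun w => if hw : w ∈ S then
        some (⟨(hmeet w hw).choose, (hmeet w hw).choose_spec.2⟩, c w (hmeet w hw).choose) else none
      obtain ⟨d, hd⟩ := exists_fiber hS f
      have hd0 : d ≠ none := by
        rintro rfl
        apply hd
        convert Set.countable_empty
        rw [Set.eq_empty_iff_forall_notMem]
        rintro w ⟨hw, hw'⟩
        simp only [f, dif_pos hw] at hw'
        exact absurd hw' (by simp)
      obtain ⟨⟨⟨t, htU⟩, e⟩, rfl⟩ := Option.ne_none_iff_exists'.1 hd0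
      have hS1 : ∀ w ∈ {w ∈ S | f w = some (⟨t, htU⟩, e)}, t ∈ supp w ∧ c w t = e := by
        rintro w ⟨hw, hw'⟩
        simp only [f, dif_pos hw, Option.some.injEq, Prod.mk.injEq, Subtype.mk.injEq] at hw'
        have h3 := (hmeet w hw).choose_spec.1
        rw [hw'.1] at h3
        refine ⟨h3, ?_⟩
        rw [← hw'.2, hw'.1]
      obtain ⟨S', hS', hS'c, hS'f⟩ := ih (fun w => (supp w).erase t) _ hd (by
        intro w hw
        rw [Finset.card_erase_of_mem (hS1 w hw).1, hcard w hw.1]
        rfl)
      refine ⟨S', hS'.trans (sep_subset _ _), hS'c, fun i hi j hj t' ht' ht'' => ?_⟩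
      by_cases htt : t' = t
      · subst htt
        rw [(hS1 i (hS' hi)).2, (hS1 j (hS' hj)).2]
      · exact hS'f i hi j hj t' (Finset.mem_erase.2 ⟨htt, ht'⟩) (Finset.mem_erase.2 ⟨htt, ht''⟩)
    · refine ⟨A, hA.1.1, hAc, fun i hi j hj t ht ht' => ?_⟩
      by_cases hij : i = j
      · rw [hij]
      · exact absurd ht' (Finset.disjoint_left.1 (hA.1.2 i hi j hj hij) ht)

theorem knaster {W T C : Type*} [DecidableEq T] [Countable C] (c : W → T → C)
    (supp : W → Finset T) (S : Set W) (hS : ¬ S.Countable) :
    ∃ S' ⊆ S, ¬ S'.Countable ∧ ∀ i ∈ S', ∀ j ∈ S', ∀ t ∈ supp i, t ∈ supp j → c i t = c j t := by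
  obtain ⟨n, hn⟩ := exists_fiber hS fun w => (supp w).card
  obtain ⟨S', hS', h⟩ := knaster_aux c n supp _ hn fun w hw => hw.2
  exact ⟨S', hS'.trans (sep_subset _ _), h⟩

end Pool.Agent.Helper79K.DS
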