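import Mathlib
import Pool.Agent.Helper79K.DS.Knaster

/-!
The conditions.
-/

set_option autoImplicit false

namespace Pool.Agent.Helper79K.DS

open Set

variable {K Λ : Type}

/-- The pieces of information of which the conditions consist. -/
inductive Atom (K Λ : Type) : Type
  | x (γ : K) (i : ℕ) (b : Bool)
  | h (α β : K) (m : ℕ)
  | f (ξ : Λ) (s : List Bool) (n : ℕ)
  | g (ξ : Λ) (γ : K) (k : ℕ)

noncomputable instance : DecidableEq (Atom K Λ) := Classical.decEq _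

/-- consistency -/
structure Cons (p : Finset (Atom K Λ)) : Prop where
  x : ∀ γ i b b', Atom.x γ i b ∈ p → Atom.x γ i b' ∈ p → b = b'
  h : ∀ α β m m', Atom.h α β m ∈ p → Atom.h α β m' ∈ p → m = m'
  f : ∀ ξ s n γ k, Atom.f ξ s n ∈ p → Atom.g ξ γ k ∈ p → k ≤ n →
    ∃ i < s.length, Atom.x γ i (!s.getD i false) ∈ p

/-- enumerations of the finite sets which justify the promises -/
abbrev Nm (K Λ : Type) : Type := Λ → K → ℕ → ℕ → Option (Finset (Atom K Λ))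

/-- conditions: every promise is justified by a condition -/
inductive Good (N : Nm K Λ) : Finset (Atom K Λ) → Prop
  | mk (p : Finset (Atom K Λ)) (c : Λ → K → ℕ → Finset (Atom K Λ)) (hp : Cons p)
      (h₁ : ∀ ξ γ k, Atom.g ξ γ k ∈ p → ∃ n < k, ∃ j, N ξ γ n j = some (c ξ γ k))
      (h₂ : ∀ ξ γ k, Atom.g ξ γ k ∈ p → c ξ γ k ⊆ p)
      (h₃ : ∀ ξ γ k, Atom.g ξ γ k ∈ p → Good N (c ξ γ k)) : Good N p

theorem good_iff {N : Nm K Λ} {p : Finset (Atom K Λ)} : Good N p ↔ Cons p ∧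
    ∀ ξ γ k, Atom.g ξ γ k ∈ p →
      ∃ c, (∃ n < k, ∃ j, N ξ γ n j = some c) ∧ c ⊆ p ∧ Good N c := by
  constructor
  · rintro ⟨_, c, hp, h₁, h₂, h₃⟩
    exact ⟨hp, fun ξ γ k h => ⟨c ξ γ k, h₁ ξ γ k h, h₂ ξ γ k h, h₃ ξ γ k h⟩⟩
  · rintro ⟨hp, h⟩
    classical
    refine ⟨p, fun ξ γ k => if h' : Atom.g ξ γ k ∈ p then (h ξ γ k h').choose else ∅, hp, ?_, ?_, ?_⟩
    · intro ξ γ k h'
      rw [dif_pos h']
      exact (h ξ γ k h').choose_spec.1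
    · intro ξ γ k h'
      rw [dif_pos h']
      exact (h ξ γ k h').choose_spec.2.1
    · intro ξ γ k h'
      rw [dif_pos h']
      exact (h ξ γ k h').choose_spec.2.2

theorem good_empty (N : Nm K Λ) : Good N ∅ :=
  good_iff.2 ⟨⟨fun _ _ _ _ h => absurd h (Finset.notMem_empty _),
    fun _ _ _ _ h => absurd h (Finset.notMem_empty _),
    fun _ _ _ _ _ h => absurd h (Finset.notMem_empty _)⟩,
    fun _ _ _ h => absurd h (Finset.notMem_empty _)⟩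

theorem good_union {N : Nm K Λ} {p q : Finset (Atom K Λ)} (hp : Good N p) (hq : Good N q)
    (hc : Cons (p ∪ q)) : Good N (p ∪ q) := by
  refine good_iff.2 ⟨hc, fun ξ γ k h => ?_⟩
  rcases Finset.mem_union.1 h with h | h
  · obtain ⟨c, h1, h2, h3⟩ := (good_iff.1 hp).2 ξ γ k h
    exact ⟨c, h1, h2.trans Finset.subset_union_left, h3⟩
  · obtain ⟨c, h1, h2, h3⟩ := (good_iff.1 hq).2 ξ γ k h
    exact ⟨c, h1, h2.trans Finset.subset_union_right, h3⟩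

/-- adding atoms which are not promises -/
theorem good_sup {N : Nm K Λ} {p q : Finset (Atom K Λ)} (hp : Good N p) (hpq : p ⊆ q)
    (hc : Cons q) (hg : ∀ ξ γ k, Atom.g ξ γ k ∈ q → Atom.g ξ γ k ∈ p) : Good N q := by
  refine good_iff.2 ⟨hc, fun ξ γ k h => ?_⟩
  obtain ⟨c, h1, h2, h3⟩ := (good_iff.1 hp).2 ξ γ k (hg ξ γ k h)
  exact ⟨c, h1, h2.trans hpq, h3⟩

/-- the set of conditions -/
def Pos (N : Nm K Λ) : Type := {p : Finset (Atom K Λ) // Good N p}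

instance (N : Nm K Λ) : Preorder (Pos N) where
  le p q := q.1 ⊆ p.1
  le_refl _ := Finset.Subset.refl _
  le_trans _ _ _ h₁ h₂ := Finset.Subset.trans h₂ h₁

theorem Pos.le_def {N : Nm K Λ} {p q : Pos N} : p ≤ q ↔ q.1 ⊆ p.1 := Iff.rfl

theorem Pos.cons {N : Nm K Λ} (p : Pos N) : Cons p.1 := (good_iff.1 p.2).1

/-- alignment of two sets of atoms -/
structure Al (p q : Finset (Atom K Λ)) : Prop where
  x : ∀ γ i b i' b', Atom.x γ i b ∈ p → Atom.x γ i' b' ∈ q → Atom.x γ i' b' ∈ p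
  h : ∀ α β m m', Atom.h α β m ∈ p → Atom.h α β m' ∈ q → Atom.h α β m' ∈ p
  f : ∀ ξ s n γ k, Atom.f ξ s n ∈ p → Atom.g ξ γ k ∈ q → Atom.f ξ s n ∈ q
  f' : ∀ ξ s n γ k, Atom.f ξ s n ∈ q → Atom.g ξ γ k ∈ p → Atom.f ξ s n ∈ p

theorem cons_union {p q : Finset (Atom K Λ)} (hp : Cons p) (hq : Cons q) (h : Al p q) :
    Cons (p ∪ q) := by
  refine ⟨fun γ i b b' h1 h2 => ?_, fun α β m m' h1 h2 => ?_, fun ξ s n γ k h1 h2 hk => ?_⟩
  · rcases Finset.mem_union.1 h1 with h1 | h1 <;> rcases Finset.mem_union.1 h2 with h2 | h2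
    · exact hp.x γ i b b' h1 h2
    · exact hp.x γ i b b' h1 (h.x γ i b i b' h1 h2)
    · exact hp.x γ i b b' (h.x γ i b' i b h2 h1) h2
    · exact hq.x γ i b b' h1 h2
  · rcases Finset.mem_union.1 h1 with h1 | h1 <;> rcases Finset.mem_union.1 h2 with h2 | h2
    · exact hp.h α β m m' h1 h2
    · exact hp.h α β m m' h1 (h.h α β m m' h1 h2)
    · exact hp.h α β m m' (h.h α β m' m h2 h1) h2
    · exact hq.h α β m m' h1 h2
  · have key : ∃ i < s.length, Atom.x γ i (!s.getD i false) ∈ p ∨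
        Atom.x γ i (!s.getD i false) ∈ q := by
      rcases Finset.mem_union.1 h1 with h1 | h1 <;> rcases Finset.mem_union.1 h2 with h2 | h2
      · obtain ⟨i, hi, hi'⟩ := hp.f ξ s n γ k h1 h2 hk
        exact ⟨i, hi, Or.inl hi'⟩
      · obtain ⟨i, hi, hi'⟩ := hq.f ξ s n γ k (h.f ξ s n γ k h1 h2) h2 hk
        exact ⟨i, hi, Or.inr hi'⟩
      · obtain ⟨i, hi, hi'⟩ := hp.f ξ s n γ k (h.f' ξ s n γ k h1 h2) h2 hk
        exact ⟨i, hi, Or.inl hi'⟩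
      · obtain ⟨i, hi, hi'⟩ := hq.f ξ s n γ k h1 h2 hk
        exact ⟨i, hi, Or.inr hi'⟩
    obtain ⟨i, hi, hi'⟩ := key
    exact ⟨i, hi, Finset.mem_union.2 hi'⟩

/-! ### the Knaster property -/

/-- the places of the atoms -/
def tok : Atom K Λ → K ⊕ (K × K) ⊕ Λ
  | .x γ _ _ => Sum.inl γ
  | .h α β _ => Sum.inr (Sum.inl (α, β))
  | .f ξ _ _ => Sum.inr (Sum.inr ξ)
  | .g ξ _ _ => Sum.inr (Sum.inr ξ)

noncomputable def xInfo (p : Finset (Atom K Λ)) (γ : K) : Finset (ℕ × Bool) :=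
  p.preimage (fun z => Atom.x γ z.1 z.2) (by
    rintro ⟨i, b⟩ _ ⟨i', b'⟩ _ h
    simp only [Atom.x.injEq, true_and] at h
    exact Prod.ext h.1 h.2)

noncomputable def hInfo (p : Finset (Atom K Λ)) (z : K × K) : Finset ℕ :=
  p.preimage (fun m => Atom.h z.1 z.2 m) (by
    rintro i _ i' _ h
    simp only [Atom.h.injEq, true_and] at h
    exact h)

noncomputable def fInfo (p : Finset (Atom K Λ)) (ξ : Λ) : Finset (List Bool × ℕ) :=
  p.preimage (fun z => Atom.f ξ z.1 z.2) (by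
    rintro ⟨i, b⟩ _ ⟨i', b'⟩ _ h
    simp only [Atom.f.injEq, true_and] at h
    exact Prod.ext h.1 h.2)

noncomputable def gInfo (p : Finset (Atom K Λ)) (γ : K) (S : Set Λ) :
    Finset {z : Λ × ℕ // z.1 ∈ S} :=
  p.preimage (fun z => Atom.g z.1.1 γ z.1.2) (by
    rintro ⟨⟨i, b⟩, _⟩ _ ⟨⟨i', b'⟩, _⟩ _ h
    simp only [Atom.g.injEq, true_and] at h
    exact Subtype.ext (Prod.ext h.1 h.2))

theorem mem_xInfo {p : Finset (Atom K Λ)} {γ : K} {i : ℕ} {b : Bool} :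
    (i, b) ∈ xInfo p γ ↔ Atom.x γ i b ∈ p := Finset.mem_preimage

theorem mem_hInfo {p : Finset (Atom K Λ)} {α β : K} {m : ℕ} :
    m ∈ hInfo p (α, β) ↔ Atom.h α β m ∈ p := Finset.mem_preimage

theorem mem_fInfo {p : Finset (Atom K Λ)} {ξ : Λ} {s : List Bool} {n : ℕ} :
    (s, n) ∈ fInfo p ξ ↔ Atom.f ξ s n ∈ p := Finset.mem_preimage

theorem mem_gInfo {p : Finset (Atom K Λ)} {γ : K} {S : Set Λ} {ξ : Λ} {k : ℕ} (hξ : ξ ∈ S) :
    (⟨(ξ, k), hξ⟩ : {z : Λ × ℕ // z.1 ∈ S}) ∈ gInfo p γ S ↔ Atom.g ξ γ k ∈ p :=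
  Finset.mem_preimage

noncomputable def info (p : Finset (Atom K Λ)) :
    K ⊕ (K × K) ⊕ Λ → Finset (ℕ × Bool) ⊕ Finset ℕ ⊕ Finset (List Bool × ℕ)
  | .inl γ => .inl (xInfo p γ)
  | .inr (.inl z) => .inr (.inl (hInfo p z))
  | .inr (.inr ξ) => .inr (.inr (fInfo p ξ))

theorem al_of {p q : Finset (Atom K Λ)}
    (h : ∀ t, (∃ a ∈ p, tok a = t) → (∃ a ∈ q, tok a = t) → info p t = info q t) : Al p q := by
  refine ⟨fun γ i b i' b' h1 h2 => ?_, fun α β m m' h1 h2 => ?_, fun ξ s n γ k h1 h2 => ?_,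
    fun ξ s n γ k h1 h2 => ?_⟩
  · have := h (Sum.inl γ) ⟨_, h1, rfl⟩ ⟨_, h2, rfl⟩
    simp only [info, Sum.inl.injEq] at this
    rw [← mem_xInfo, this, mem_xInfo]
    exact h2
  · have := h (Sum.inr (Sum.inl (α, β))) ⟨_, h1, rfl⟩ ⟨_, h2, rfl⟩
    simp only [info, Sum.inl.injEq, Sum.inr.injEq] at this
    rw [← mem_hInfo, this, mem_hInfo]
    exact h2
  · have := h (Sum.inr (Sum.inr ξ)) ⟨_, h1, rfl⟩ ⟨_, h2, rfl⟩
    simp only [info, Sum.inr.injEq] at this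
    rw [← mem_fInfo, ← this, mem_fInfo]
    exact h1
  · have := h (Sum.inr (Sum.inr ξ)) ⟨_, h2, rfl⟩ ⟨_, h1, rfl⟩
    simp only [info, Sum.inr.injEq] at this
    rw [← mem_fInfo, this, mem_fInfo]
    exact h1

theorem knaster_al {W : Type*} (p : W → Finset (Atom K Λ)) (S : Set W) (hS : ¬ S.Countable) :
    ∃ S' ⊆ S, ¬ S'.Countable ∧ ∀ i ∈ S', ∀ j ∈ S', Al (p i) (p j) := by
  classical
  obtain ⟨S', h1, h2, h3⟩ := knaster (fun w => info (p w)) (fun w => (p w).image tok) S hS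
  refine ⟨S', h1, h2, fun i hi j hj => al_of fun t ht ht' => ?_⟩
  exact h3 i hi j hj t (Finset.mem_image.2 ht) (Finset.mem_image.2 ht')

variable {N : Nm K Λ}

theorem ccc (A : Set (Pos N))
    (hA : ∀ p ∈ A, ∀ q ∈ A, p ≠ q → ¬ ∃ r, r ≤ p ∧ r ≤ q) : A.Countable := by
  by_contra hcon
  obtain ⟨S', h1, h2, h3⟩ := knaster_al (fun p : Pos N => p.1) A hcon
  apply h2
  refine Set.Subsingleton.countable fun p hp q hq => ?_
  by_contra hpq
  refine hA p (h1 hp) q (h1 hq) hpq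
    ⟨⟨p.1 ∪ q.1, good_union p.2 q.2 (cons_union p.cons q.cons (h3 p hp q hq))⟩, ?_, ?_⟩
  · exact Finset.subset_union_left
  · exact Finset.subset_union_right

theorem exists_predense (M : Set (Pos N)) :
    ∃ A ⊆ M, A.Countable ∧ ∀ q ∈ M, ∃ a ∈ A, ∃ r, r ≤ q ∧ r ≤ a := by
  obtain ⟨A, hA⟩ : ∃ A, Maximal (fun A : Set (Pos N) => A ⊆ M ∧
      ∀ p ∈ A, ∀ q ∈ A, p ≠ q → ¬ ∃ r, r ≤ p ∧ r ≤ q) A := by
    refine zorn_subset _ fun ch hch hchain => ?_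
    refine ⟨⋃₀ ch, ⟨sUnion_subset fun s hs => (hch hs).1, ?_⟩, fun s hs => subset_sUnion_of_mem hs⟩
    rintro i ⟨s, hs, his⟩ j ⟨t, ht, hjt⟩ hij
    rcases hchain.total hs ht with h | h
    · exact (hch ht).2 i (h his) j hjt hij
    · exact (hch hs).2 i his j (h hjt) hij
  refine ⟨A, hA.1.1, ccc A hA.1.2, fun q hq => ?_⟩
  by_contra hcon
  have hqA : q ∉ A := fun h => hcon ⟨q, h, q, le_rfl, le_rfl⟩
  apply hqA
  have h2 : insert q A ⊆ A := by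
    refine hA.2 ⟨insert_subset hq hA.1.1, ?_⟩ (subset_insert q A)
    rintro i (rfl | hi) j (rfl | hj) hij
    · exact absurd rfl hij
    · rintro ⟨r, hr, hr'⟩
      exact hcon ⟨j, hj, r, hr, hr'⟩
    · rintro ⟨r, hr, hr'⟩
      exact hcon ⟨i, hi, r, hr', hr⟩
    · exact hA.1.2 i hi j hj hij
  exact h2 (mem_insert q A)

end Pool.Agent.Helper79K.DS
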