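import Mathlib
import Pool.Agent.Helper79K.TS.Forc

/-!
The principle `Prin K` about subsets of the natural numbers indexed by `K`. There are two
definitions: the statement about actual objects, and the same statement in the forcing language of
a preordered set `P` of conditions (names ending in `N`). The connectives of the forcing language
are in `Pool.Agent.Helper79K.TS.Forc`: a sentence is represented by the set of the conditions
which force it, a name of a subset of a set `X` of the ground model is a map from `X` to the sets
of conditions, `meets (z x)` is the sentence `x belongs to z`, and `fground` is used for facts about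
objects of the ground model. For a one-element `P` the forcing version is equivalent to the actual
statement (`triv_prin` in `Pool.Agent.Helper79K.DS.Triv`).
-/

set_option autoImplicit false

namespace Pool.Agent.Helper79K.DS

open TS.Forc

/-! ### Actual objects -/

/-- The list `u` of truth values is an initial segment of the characteristic function of `z`. -/
def Thru (z : ℕ → Prop) (u : List Bool) : Prop := ∀ i < u.length, (z i ↔ u.getD i false = true)

/-- The relation `g` is a function from `K` to `ℕ`. -/
def IsFun {K : Type} (g : K → ℕ → Prop) : Prop :=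
  (∀ γ, ∃ n, g γ n) ∧ ∀ γ m n, g γ m ∧ g γ n → m = n

/-- The sets `U n` of finite sequences code a point-finite open expansion of the partition of the
points `x γ` given by the function `g`: for every `γ` some member of `U (g γ)` is an initial segment
of `x γ`, and for all large `n` no member of `U n` is an initial segment of `x γ`. -/
def Exp1 {K : Type} (x : K → ℕ → Prop) (g : K → ℕ → Prop) (U : ℕ → List Bool → Prop) : Prop :=
  ∀ γ, (∃ (n : ℕ) (s : List Bool), g γ n ∧ U n s ∧ Thru (x γ) s) ∧
    ∃ k : ℕ, ∀ n : ℕ, k ≤ n → ∀ s : List Bool, ¬ (U n s ∧ Thru (x γ) s)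

/-- The sets `V n` of pairs of finite sequences code a point-finite open expansion of the partition
of the pairs of points `x α`, `x β` given by the function `h`. -/
def Exp2 {K : Type} (x : K → ℕ → Prop) (h : K → K → ℕ → Prop)
    (V : ℕ → List Bool → List Bool → Prop) : Prop :=
  ∀ α β, (∃ (n : ℕ) (s t : List Bool), h α β n ∧ V n s t ∧ Thru (x α) s ∧ Thru (x β) t) ∧
    ∃ k : ℕ, ∀ n : ℕ, k ≤ n → ∀ s t : List Bool, ¬ (V n s t ∧ Thru (x α) s ∧ Thru (x β) t)

/-- There are pairwise different subsets `x γ` of `ℕ`, for `γ` in `K`, such that every function on
`K` has a point-finite open expansion, and a function `h` on `K × K` which has none. -/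
def Prin (K : Type) : Prop :=
  ∃ (x : K → ℕ → Prop) (h : K → K → ℕ → Prop),
    (∀ α β, α ≠ β → ∃ i, ¬ (x α i ↔ x β i)) ∧
    ((∀ α, IsFun (h α)) ∧
    ((∀ g : K → ℕ → Prop, IsFun g → ∃ U : ℕ → List Bool → Prop, Exp1 x g U) ∧
    ¬ ∃ V : ℕ → List Bool → List Bool → Prop, Exp2 x h V))

/-! ### Names -/

variable {P : Type} [Preorder P]

/-- The forcing version of `Thru`. -/
def ThruN (z : ℕ → Set P) (u : List Bool) : Set P :=
  fall fun i => fall fun _ : i < u.length => fiff (meets (z i)) (fground (u.getD i false = true))

/-- The forcing version of `IsFun`. -/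
def IsFunN {K : Type} (g : K → ℕ → Set P) : Set P :=
  fand (fall fun γ => fex fun n => meets (g γ n))
    (fall fun γ => fall fun m => fall fun n =>
      fimp (fand (meets (g γ m)) (meets (g γ n))) (fground (m = n)))

/-- The forcing version of `Exp1`. -/
def Exp1N {K : Type} (x : K → ℕ → Set P) (g : K → ℕ → Set P) (U : ℕ → List Bool → Set P) : Set P :=
  fall fun γ =>
    fand (fex fun n : ℕ => fex fun s : List Bool =>
        fand (meets (g γ n)) (fand (meets (U n s)) (ThruN (x γ) s)))
      (fex fun k : ℕ => fall fun n : ℕ => fall fun _ : k ≤ n => fall fun s : List Bool =>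
        fnot (fand (meets (U n s)) (ThruN (x γ) s)))

/-- The forcing version of `Exp2`. -/
def Exp2N {K : Type} (x : K → ℕ → Set P) (h : K → K → ℕ → Set P)
    (V : ℕ → List Bool → List Bool → Set P) : Set P :=
  fall fun α => fall fun β =>
    fand (fex fun n : ℕ => fex fun s : List Bool => fex fun t : List Bool =>
        fand (meets (h α β n)) (fand (meets (V n s t)) (fand (ThruN (x α) s) (ThruN (x β) t))))
      (fex fun k : ℕ => fall fun n : ℕ => fall fun _ : k ≤ n => fall fun s : List Bool =>
        fall fun t : List Bool =>
          fnot (fand (meets (V n s t)) (fand (ThruN (x α) s) (ThruN (x β) t))))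

/-- The forcing version of `Prin`. -/
def PrinN (P : Type) [Preorder P] (K : Type) : Set P :=
  fex fun x : K → ℕ → Set P => fex fun h : K → K → ℕ → Set P =>
    fand (fall fun α => fall fun β => fall fun _ : α ≠ β => fex fun i =>
        fnot (fiff (meets (x α i)) (meets (x β i))))
    (fand (fall fun α => IsFunN (h α))
    (fand (fall fun g : K → ℕ → Set P =>
        fimp (IsFunN g) (fex fun U : ℕ → List Bool → Set P => Exp1N x g U))
      (fnot (fex fun V : ℕ → List Bool → List Bool → Set P => Exp2N x h V))))

end Pool.Agent.Helper79K.DS
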