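import Mathlib
import Pool.Agent.Helper79K.DS.Cond
import Pool.Agent.Helper79K.DS.Sent

/-!
The names of the generic objects.
-/

set_option autoImplicit false

namespace Pool.Agent.Helper79K.DS

open Set TS.Forc

/-! ### general forcing -/

section
variable {P : Type} [Preorder P]

theorem mem_fiff_ground {φ : Set P} {h : Prop} {p : P} :
    p ∈ fiff φ (fground h) ↔ (∀ q ≤ p, q ∈ φ → h) ∧ (h → ∀ q ≤ p, ∃ r ≤ q, r ∈ φ) := by
  constructor
  · rintro ⟨h1, h2⟩
    rw [mem_fimp] at h1 h2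
    exact ⟨fun q hq hq' => (h1 q hq hq').choose_spec.2, fun hh q hq => h2 q hq hh⟩
  · rintro ⟨h1, h2⟩
    refine ⟨mem_fimp.2 fun q hq hq' => ⟨q, le_rfl, h1 q hq hq'⟩, mem_fimp.2 fun q hq hq' => h2 hq' q hq⟩

omit [Preorder P] in
theorem mem_fand {φ ψ : Set P} {p : P} : p ∈ fand φ ψ ↔ p ∈ φ ∧ p ∈ ψ := Iff.rfl

omit [Preorder P] in
theorem mem_fall {ι : Sort*} {φ : ι → Set P} {p : P} : p ∈ fall φ ↔ ∀ i, p ∈ φ i := Iff.rfl

theorem fiff_ground_down {φ : Set P} {h : Prop} {p q : P} (hp : p ∈ fiff φ (fground h))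
    (hq : q ≤ p) : q ∈ fiff φ (fground h) := by
  rw [mem_fiff_ground] at hp ⊢
  exact ⟨fun r hr => hp.1 r (hr.trans hq), fun hh r hr => hp.2 hh r (hr.trans hq)⟩

theorem thru_down {z : ℕ → Set P} {u : List Bool} {p q : P} (hp : p ∈ ThruN z u) (hq : q ≤ p) :
    q ∈ ThruN z u := fun i hi => fiff_ground_down (hp i hi) hq

theorem fex_down {ι : Sort*} {φ : ι → Set P} {p q : P} (hp : p ∈ fex φ) (hq : q ≤ p) :
    q ∈ fex φ := fnot_down hp hq

end

/-! ### the generic objects -/

variable {K Λ : Type} {N : Nm K Λ}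

/-- the names of the generic reals -/
def xN (N : Nm K Λ) (γ : K) (i : ℕ) : Set (Pos N) := {p | Atom.x γ i true ∈ p.1}

/-- the name of the generic function -/
def hN (N : Nm K Λ) (α β : K) (m : ℕ) : Set (Pos N) := {p | Atom.h α β m ∈ p.1}

/-- the names of the open sets -/
def uN (N : Nm K Λ) (ξ : Λ) (n : ℕ) (s : List Bool) : Set (Pos N) := {p | Atom.f ξ s n ∈ p.1}

theorem meets_xN {p : Pos N} {γ : K} {i : ℕ} (h : Atom.x γ i true ∈ p.1) :
    p ∈ meets (xN N γ i) := meets_of_mem h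

theorem not_meets_xN {p : Pos N} {γ : K} {i : ℕ} (h : Atom.x γ i false ∈ p.1) :
    p ∉ meets (xN N γ i) := by
  intro hp
  obtain ⟨r, hr, s, hs, hrs⟩ := hp p le_rfl
  have h1 : Atom.x γ i true ∈ r.1 := hrs hs
  have h2 : Atom.x γ i false ∈ r.1 := hr h
  exact absurd (r.cons.x γ i true false h1 h2) (by decide)

theorem meets_hN {p : Pos N} {α β : K} {m : ℕ} (h : Atom.h α β m ∈ p.1) :
    p ∈ meets (hN N α β m) := meets_of_mem h

theorem eq_of_meets_hN {p : Pos N} {α β : K} {m m' : ℕ} (h : Atom.h α β m ∈ p.1)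
    (h' : p ∈ meets (hN N α β m')) : m = m' := by
  obtain ⟨r, hr, s, hs, hrs⟩ := h' p le_rfl
  exact r.cons.h α β m m' (hr h) (hrs hs)

theorem thru_of {p : Pos N} {γ : K} {s : List Bool}
    (h : ∀ i < s.length, Atom.x γ i (s.getD i false) ∈ p.1) : p ∈ ThruN (xN N γ) s := by
  intro i hi
  rw [mem_fiff_ground]
  have h1 := h i hi
  constructor
  · intro q hq hq'
    cases hb : s.getD i false
    · rw [hb] at h1
      exact absurd hq' (not_meets_xN (hq h1))
    · rfl
  · intro hb q hq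
    rw [hb] at h1
    exact ⟨q, le_rfl, meets_xN (hq h1)⟩

theorem val_of_thru {p : Pos N} {γ : K} {s : List Bool} (h : p ∈ ThruN (xN N γ) s) {i : ℕ}
    (hi : i < s.length) {b : Bool} (hb : Atom.x γ i b ∈ p.1) : b = s.getD i false := by
  have h1 := h i hi
  rw [mem_fiff_ground] at h1
  cases b
  · by_contra hne
    have h2 : s.getD i false = true := by
      cases hh : s.getD i false
      · exact absurd hh.symm hne
      · rfl
    obtain ⟨r, hr, hr'⟩ := h1.2 h2 p le_rfl
    exact not_meets_xN (hr hb) hr'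
  · exact (h1.1 p le_rfl (meets_xN hb)).symm

theorem not_thru {p : Pos N} {γ : K} {s : List Bool} {i : ℕ} (hi : i < s.length)
    (h : Atom.x γ i (!s.getD i false) ∈ p.1) : p ∉ ThruN (xN N γ) s := by
  intro hp
  have := val_of_thru hp hi h
  cases hb : s.getD i false
  · rw [hb] at this
    exact absurd this (by decide)
  · rw [hb] at this
    exact absurd this (by decide)

/-- adding atoms `x` -/
theorem ext_x (p : Pos N) (E : Finset (Atom K Λ)) (hE : ∀ a ∈ E, ∃ γ i b, a = Atom.x γ i b)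
    (hc : ∀ γ i b b', Atom.x γ i b ∈ p.1 ∪ E → Atom.x γ i b' ∈ p.1 ∪ E → b = b') :
    ∃ q ≤ p, q.1 = p.1 ∪ E := by
  have hg : ∀ ξ γ k, Atom.g ξ γ k ∈ p.1 ∪ E → Atom.g ξ γ k ∈ p.1 := by
    intro ξ γ k h
    rcases Finset.mem_union.1 h with h | h
    · exact h
    · obtain ⟨_, _, _, h'⟩ := hE _ h
      exact absurd h' (by simp)
  have hf : ∀ ξ s n, Atom.f ξ s n ∈ p.1 ∪ E → Atom.f ξ s n ∈ p.1 := by
    intro ξ s n h
    rcases Finset.mem_union.1 h with h | h
    · exact h
    · obtain ⟨_, _, _, h'⟩ := hE _ h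
      exact absurd h' (by simp)
  have hh : ∀ α β m, Atom.h α β m ∈ p.1 ∪ E → Atom.h α β m ∈ p.1 := by
    intro α β m h
    rcases Finset.mem_union.1 h with h | h
    · exact h
    · obtain ⟨_, _, _, h'⟩ := hE _ h
      exact absurd h' (by simp)
  refine ⟨⟨p.1 ∪ E, good_sup p.2 Finset.subset_union_left ⟨hc, ?_, ?_⟩ hg⟩,
    Finset.subset_union_left, rfl⟩
  · intro α β m m' h h'
    exact p.cons.h α β m m' (hh _ _ _ h) (hh _ _ _ h')
  · intro ξ s n γ k h h' hk
    obtain ⟨i, hi, hi'⟩ := p.cons.f ξ s n γ k (hf _ _ _ h) (hg _ _ _ h') hk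
    exact ⟨i, hi, Finset.mem_union_left _ hi'⟩

/-- an initial segment of a generic real can be decided -/
theorem exists_thru {p : Pos N} {γ : K} {s : List Bool} (h : p ∈ ThruN (xN N γ) s) :
    ∃ q ≤ p, ∀ i < s.length, Atom.x γ i (s.getD i false) ∈ q.1 := by
  classical
  have hmem : ∀ γ' i b, Atom.x γ' i b ∈ p.1 ∪
      (Finset.range s.length).image (fun i => (Atom.x γ i (s.getD i false) : Atom K Λ)) →
      Atom.x γ' i b ∈ p.1 ∨ (γ' = γ ∧ i < s.length ∧ b = s.getD i false) := by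
    intro γ' i b h
    rcases Finset.mem_union.1 h with h | h
    · exact Or.inl h
    · obtain ⟨j, hj, hj'⟩ := Finset.mem_image.1 h
      simp only [Atom.x.injEq] at hj'
      obtain ⟨rfl, rfl, rfl⟩ := hj'
      exact Or.inr ⟨rfl, Finset.mem_range.1 hj, rfl⟩
  obtain ⟨q, hq, hq'⟩ := ext_x p
    ((Finset.range s.length).image (fun i => (Atom.x γ i (s.getD i false) : Atom K Λ)))
    (by
      intro a ha
      obtain ⟨j, _, hj⟩ := Finset.mem_image.1 ha
      exact ⟨_, _, _, hj.symm⟩)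
    (by
      intro γ' i b b' h1 h2
      rcases hmem _ _ _ h1 with h1 | ⟨rfl, hi, rfl⟩ <;> rcases hmem _ _ _ h2 with h2 | ⟨hγ, hi', rfl⟩
      · exact p.cons.x _ _ _ _ h1 h2
      · rw [hγ] at h1
        exact val_of_thru h hi' h1
      · exact (val_of_thru h hi h2).symm
      · rfl)
  refine ⟨q, hq, fun i hi => ?_⟩
  rw [hq']
  exact Finset.mem_union_right _ (Finset.mem_image.2 ⟨i, Finset.mem_range.2 hi, rfl⟩)

/-- a bound for the positions and indices occurring in a finite set of atoms -/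
theorem exists_fresh (p : Finset (Atom K Λ)) :
    ∃ L : ℕ, (∀ γ i b, Atom.x γ i b ∈ p → i < L) ∧ (∀ ξ s n, Atom.f ξ s n ∈ p → n < L) := by
  classical
  let w : Atom K Λ → ℕ := fun a => match a with
    | .x _ i _ => i + 1
    | .f _ _ n => n + 1
    | _ => 0
  refine ⟨p.sup w, fun γ i b h => ?_, fun ξ s n h => ?_⟩
  · have : w (Atom.x γ i b) ≤ p.sup w := Finset.le_sup h
    exact this
  · have : w (Atom.f ξ s n) ≤ p.sup w := Finset.le_sup h
    exact this

/-- the generic reals are different -/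
theorem ne_forced (p : Pos N) {α β : K} (hαβ : α ≠ β) :
    p ∈ fex fun i => fnot (fiff (meets (xN N α i)) (meets (xN N β i))) := by
  classical
  rw [mem_fex]
  intro q _
  obtain ⟨L, hL, _⟩ := exists_fresh q.1
  have hmem : ∀ γ i b, Atom.x γ i b ∈ q.1 ∪ {Atom.x α L true, Atom.x β L false} →
      (Atom.x γ i b ∈ q.1 ∧ i < L) ∨ (γ = α ∧ i = L ∧ b = true) ∨ (γ = β ∧ i = L ∧ b = false) := by
    intro γ i b h
    rcases Finset.mem_union.1 h with h | h
    · exact Or.inl ⟨h, hL _ _ _ h⟩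
    · rcases Finset.mem_insert.1 h with h | h
      · simp only [Atom.x.injEq] at h
        exact Or.inr (Or.inl h)
      · simp only [Finset.mem_singleton, Atom.x.injEq] at h
        exact Or.inr (Or.inr h)
  obtain ⟨r, hr, hr'⟩ := ext_x q {Atom.x α L true, Atom.x β L false}
    (by
      intro a ha
      rcases Finset.mem_insert.1 ha with h | h
      · exact ⟨_, _, _, h⟩
      · exact ⟨_, _, _, Finset.mem_singleton.1 h⟩)
    (by
      intro γ i b b' h1 h2
      rcases hmem _ _ _ h1 with ⟨h1, h1'⟩ | ⟨h1, h1', h1''⟩ | ⟨h1, h1', h1''⟩ <;>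
        rcases hmem _ _ _ h2 with ⟨h2, h2'⟩ | ⟨h2, h2', h2''⟩ | ⟨h2, h2', h2''⟩
      · exact q.cons.x _ _ _ _ h1 h2
      · omega
      · omega
      · omega
      · rw [h1'', h2'']
      · exact absurd (h1.symm.trans h2) hαβ
      · omega
      · exact absurd (h2.symm.trans h1) hαβ
      · rw [h1'', h2''])
  refine ⟨r, hr, L, ?_⟩
  have h1 : Atom.x α L true ∈ r.1 := by
    rw [hr']
    exact Finset.mem_union_right _ (Finset.mem_insert_self _ _)
  have h2 : Atom.x β L false ∈ r.1 := by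
    rw [hr']
    exact Finset.mem_union_right _ (Finset.mem_insert_of_mem (Finset.mem_singleton_self _))
  intro t ht ht'
  have h3 := mem_fimp.1 ht'.1 t le_rfl (meets_xN (ht h1))
  obtain ⟨t', ht1, ht2⟩ := h3
  exact not_meets_xN (ht1 (ht h2)) ht2

/-- the generic function is a function -/
theorem isFun_hN (p : Pos N) (α : K) : p ∈ IsFunN (hN N α) := by
  classical
  constructor
  · intro β
    rw [mem_fex]
    intro q _
    by_cases hq : ∃ m, Atom.h α β m ∈ q.1
    · obtain ⟨m, hm⟩ := hq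
      exact ⟨q, le_rfl, m, meets_hN hm⟩
    · push Not at hq
      have hg : Good N (q.1 ∪ {Atom.h α β 0}) := by
        refine good_sup q.2 Finset.subset_union_left ⟨?_, ?_, ?_⟩ ?_
        · intro γ i b b' h1 h2
          simp only [Finset.mem_union, Finset.mem_singleton, reduceCtorEq, or_false] at h1 h2
          exact q.cons.x _ _ _ _ h1 h2
        · intro α' β' m m' h1 h2
          simp only [Finset.mem_union, Finset.mem_singleton, Atom.h.injEq] at h1 h2
          rcases h1 with h1 | ⟨rfl, rfl, rfl⟩ <;> rcases h2 with h2 | ⟨h2, h2', h2''⟩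
          · exact q.cons.h _ _ _ _ h1 h2
          · rw [h2, h2'] at h1
            exact absurd h1 (hq _)
          · exact absurd h2 (hq _)
          · exact h2''.symm
        · intro ξ s n γ k h1 h2 hk
          simp only [Finset.mem_union, Finset.mem_singleton, reduceCtorEq, or_false] at h1 h2 ⊢
          exact q.cons.f _ _ _ _ _ h1 h2 hk
        · intro ξ γ k h
          simp only [Finset.mem_union, Finset.mem_singleton, reduceCtorEq, or_false] at h
          exact h
      refine ⟨⟨_, hg⟩, Finset.subset_union_left, 0, meets_hN ?_⟩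
      exact Finset.mem_union_right _ (Finset.mem_singleton_self _)
  · intro β m n
    rw [mem_fimp]
    rintro q _ ⟨h1, h2⟩
    obtain ⟨r, hr, s, hs, hrs⟩ := h1 q le_rfl
    exact ⟨r, hr, eq_of_meets_hN (hrs hs) (meets_down h2 hr)⟩

end Pool.Agent.Helper79K.DS
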