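import Mathlib
import Pool.Agent.Helper79K.DS.Cond

/-!
All enumerations can be enumerated.
-/

set_option autoImplicit false

namespace Pool.Agent.Helper79K.DS

open Cardinal

theorem arrow_le {κ : Cardinal.{0}} (hκ : ℵ₀ ≤ κ) {A B : Type} (hA : #A ≤ κ) (hB : #B ≤ 2 ^ κ) :
    #(A → B) ≤ 2 ^ κ := by
  rw [← Cardinal.power_def]
  refine (Cardinal.power_le_power_right hB).trans ?_
  refine (Cardinal.power_le_power_left ?_ hA).trans ?_
  · exact (Cardinal.power_pos κ two_pos).ne'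
  · rw [← Cardinal.power_mul, Cardinal.mul_eq_self hκ]

theorem prod_le {θ : Cardinal.{0}} (hθ : ℵ₀ ≤ θ) {A B : Type} (hA : #A ≤ θ) (hB : #B ≤ θ) :
    #(A × B) ≤ θ := by
  rw [Cardinal.mk_prod, Cardinal.lift_id, Cardinal.lift_id]
  exact (mul_le_mul' hA hB).trans (Cardinal.mul_eq_self hθ).le

theorem sum_le {θ : Cardinal.{0}} (hθ : ℵ₀ ≤ θ) {A B : Type} (hA : #A ≤ θ) (hB : #B ≤ θ) :
    #(A ⊕ B) ≤ θ := by
  rw [Cardinal.mk_sum, Cardinal.lift_id, Cardinal.lift_id]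
  exact Cardinal.add_le_of_le hθ hA hB

theorem finset_le {θ : Cardinal.{0}} (hθ : ℵ₀ ≤ θ) {A : Type} (hA : #A ≤ θ) : #(Finset A) ≤ θ := by
  classical
  have h1 : #(Finset A) ≤ #(List A) :=
    Cardinal.mk_le_of_surjective (f := List.toFinset) (fun s => ⟨s.toList, Finset.toList_toFinset s⟩)
  exact h1.trans ((Cardinal.mk_list_le_max A).trans (max_le hθ hA))

theorem countable_le {θ : Cardinal.{0}} (hθ : ℵ₀ ≤ θ) {A : Type} [Countable A] : #A ≤ θ :=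
  Cardinal.mk_le_aleph0.trans hθ

theorem atom_le {θ : Cardinal.{0}} (hθ : ℵ₀ ≤ θ) {K Λ : Type} (hK : #K ≤ θ) (hΛ : #Λ ≤ θ) :
    #(Atom K Λ) ≤ θ := by
  have h1 : #(Atom K Λ) ≤
      #((K × ℕ × Bool) ⊕ (K × K × ℕ) ⊕ (Λ × List Bool × ℕ) ⊕ (Λ × K × ℕ)) := by
    let F : Atom K Λ → (K × ℕ × Bool) ⊕ (K × K × ℕ) ⊕ (Λ × List Bool × ℕ) ⊕ (Λ × K × ℕ) :=
      fun a => match a with
      | .x γ i b => .inl (γ, i, b)
      | .h α β m => .inr (.inl (α, β, m))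
      | .f ξ s n => .inr (.inr (.inl (ξ, s, n)))
      | .g ξ γ k => .inr (.inr (.inr (ξ, γ, k)))
    refine Cardinal.mk_le_of_injective (f := F) ?_
    rintro (⟨γ, i, b⟩ | ⟨α, β, m⟩ | ⟨ξ, s, n⟩ | ⟨ξ, γ, k⟩) (⟨γ', i', b'⟩ | ⟨α', β', m'⟩ |
      ⟨ξ', s', n'⟩ | ⟨ξ', γ', k'⟩) h <;> simp_all [F]
  refine h1.trans (sum_le hθ ?_ (sum_le hθ ?_ (sum_le hθ ?_ ?_)))
  · exact prod_le hθ hK (countable_le hθ)
  · exact prod_le hθ hK (prod_le hθ hK (countable_le hθ))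
  · exact prod_le hθ hΛ (countable_le hθ)
  · exact prod_le hθ hΛ (prod_le hθ hK (countable_le hθ))

theorem exists_surj (K : Type) (hK : ℵ₀ ≤ #K) : ∃ N : Nm K (Set K), Function.Surjective N := by
  have hθ : ℵ₀ ≤ (2 : Cardinal.{0}) ^ #K := hK.trans (Cardinal.cantor _).le
  have h1 : #(K → ℕ → ℕ → Option (Finset (Atom K (Set K)))) ≤ #(Set K) := by
    rw [Cardinal.mk_set]
    refine arrow_le hK le_rfl (arrow_le hK (countable_le hK) (arrow_le hK (countable_le hK) ?_))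
    rw [Cardinal.mk_option]
    refine Cardinal.add_le_of_le hθ ?_ (Cardinal.one_le_aleph0.trans hθ)
    exact finset_le hθ (atom_le hθ (Cardinal.cantor _).le (Cardinal.mk_set).le)
  obtain ⟨e⟩ := h1
  have : Nonempty (K → ℕ → ℕ → Option (Finset (Atom K (Set K)))) := ⟨fun _ _ _ => none⟩
  exact ⟨Function.invFun e, Function.invFun_surjective e.injective⟩

end Pool.Agent.Helper79K.DS
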