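import Mathlib
import Pool.Agent.Helper79K.DS.Basic

/-!
Every function on the index set has a point-finite open expansion.
-/

set_option autoImplicit false

namespace Pool.Agent.Helper79K.DS

open Set TS.Forc

variable {K Λ : Type} {N : Nm K Λ}

theorem getD_map_range (b : ℕ → Bool) (L i : ℕ) (hi : i < L) :
    ((List.range L).map b).getD i false = b i := by
  rw [List.getD_eq_getElem _ _ (by simpa using hi)]
  simp

theorem exists_enum (A : Set (Pos N)) (hA : A.Countable) :
    ∃ e : ℕ → Option (Finset (Atom K Λ)), (∀ j c, e j = some c → ∃ a ∈ A, a.1 = c) ∧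
      ∀ a ∈ A, ∃ j, e j = some a.1 := by
  have h1 : (insert none ((fun a : Pos N => some a.1) '' A)).Countable :=
    (hA.image _).insert _
  obtain ⟨e, he⟩ := h1.exists_eq_range ⟨none, mem_insert _ _⟩
  refine ⟨e, fun j c hj => ?_, fun a ha => ?_⟩
  · have h2 : e j ∈ insert none ((fun a : Pos N => some a.1) '' A) := by
      rw [he]
      exact mem_range_self j
    rw [hj] at h2
    rcases h2 with h2 | ⟨a, ha, h2⟩
    · exact absurd h2 (by simp)
    · exact ⟨a, ha, Option.some.inj h2⟩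
  · have h2 : some a.1 ∈ insert none ((fun a : Pos N => some a.1) '' A) :=
      mem_insert_of_mem _ ⟨a, ha, rfl⟩
    rw [he] at h2
    exact h2

theorem exp_forced (hN : Function.Surjective N) (g : K → ℕ → Set (Pos N)) {q₀ : Pos N}
    (hg : q₀ ∈ IsFunN g) : ∃ U : ℕ → List Bool → Set (Pos N), q₀ ∈ Exp1N (xN N) g U := by
  classical
  have h1 : ∀ γ n, ∃ A ⊆ {p : Pos N | p ∈ meets (g γ n)}, A.Countable ∧
      ∀ q ∈ {p : Pos N | p ∈ meets (g γ n)}, ∃ a ∈ A, ∃ r, r ≤ q ∧ r ≤ a :=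
    fun γ n => exists_predense _
  choose A hAM hAc hAd using h1
  choose e he₁ he₂ using fun γ n => exists_enum (A γ n) (hAc γ n)
  obtain ⟨ξ, hξ⟩ := hN e
  have P1 : ∀ γ n j c, N ξ γ n j = some c → ∃ a : Pos N, a.1 = c ∧ a ∈ meets (g γ n) := by
    intro γ n j c h
    rw [hξ] at h
    obtain ⟨a, ha, ha'⟩ := he₁ γ n j c h
    exact ⟨a, ha', hAM γ n ha⟩
  have P2 : ∀ γ n, ∀ a ∈ A γ n, ∃ j, N ξ γ n j = some a.1 := by
    intro γ n a ha
    rw [hξ]
    exact he₂ γ n a ha
  have dec : ∀ γ, ∀ r ≤ q₀, ∃ t ≤ r, ∃ n, ∃ a ∈ A γ n, t ≤ a := by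
    intro γ r hr
    obtain ⟨r1, hr1, n, hn⟩ := mem_fex.1 (hg.1 γ) r hr
    obtain ⟨a, ha, t, ht, ht'⟩ := hAd γ n r1 hn
    exact ⟨t, ht.trans hr1, n, a, ha, ht'⟩
  have uniq : ∀ γ m n, ∀ t ≤ q₀, t ∈ meets (g γ m) → t ∈ meets (g γ n) → m = n := by
    intro γ m n t ht h h'
    obtain ⟨r, _, hr⟩ := mem_fimp.1 (hg.2 γ m n) t ht ⟨h, h'⟩
    exact hr
  refine ⟨uN N ξ, fun γ => ⟨?_, ?_⟩⟩
  · rw [mem_fex]
    intro r hr
    obtain ⟨t₀, ht₀, n, a, ha, hta⟩ := dec γ r hr
    obtain ⟨L, hL, _⟩ := exists_fresh t₀.1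
    let b : ℕ → Bool := fun i => decide (Atom.x γ i true ∈ t₀.1)
    have hb : ∀ i v, Atom.x γ i v ∈ t₀.1 → v = b i := by
      intro i v hv
      by_cases h : Atom.x γ i true ∈ t₀.1
      · rw [t₀.cons.x _ _ _ _ hv h]
        exact (decide_eq_true h).symm
      · cases v
        · exact (decide_eq_false h).symm
        · exact absurd hv h
    let φ : Atom K Λ → Atom K Λ := fun a => match a with
      | .g _ γ' _ => if γ' = γ then .x γ L (b L) else .x γ' L (!b L)
      | _ => .x γ L (b L)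
    let E : Finset (Atom K Λ) := (Finset.range (L + 1)).image (fun i => Atom.x γ i (b i)) ∪
      t₀.1.image φ
    have hφ : ∀ a, φ a = .x γ L (b L) ∨ ∃ γ', γ' ≠ γ ∧ φ a = .x γ' L (!b L) := by
      intro a
      cases a with
      | x γ' i v => exact Or.inl rfl
      | h α β m => exact Or.inl rfl
      | f ξ s n => exact Or.inl rfl
      | g ξ' γ' k =>
        by_cases hγ : γ' = γ
        · exact Or.inl (if_pos hγ)
        · exact Or.inr ⟨γ', hγ, if_neg hγ⟩
    have hE : ∀ a ∈ E, (∃ i, a = Atom.x γ i (b i)) ∨ ∃ γ', γ' ≠ γ ∧ a = Atom.x γ' L (!b L) := by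
      intro a ha
      rcases Finset.mem_union.1 ha with ha | ha
      · obtain ⟨i, _, hi⟩ := Finset.mem_image.1 ha
        exact Or.inl ⟨i, hi.symm⟩
      · obtain ⟨a', _, ha'⟩ := Finset.mem_image.1 ha
        rcases hφ a' with h | ⟨γ', hγ', h⟩
        · exact Or.inl ⟨L, ha'.symm.trans h⟩
        · exact Or.inr ⟨γ', hγ', ha'.symm.trans h⟩
    have hmem : ∀ γ' i v, Atom.x γ' i v ∈ t₀.1 ∪ E →
        (γ' = γ ∧ v = b i) ∨ (γ' ≠ γ ∧ ((Atom.x γ' i v ∈ t₀.1 ∧ i < L) ∨ (i = L ∧ v = !b L))) := by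
      intro γ' i v h
      rcases Finset.mem_union.1 h with h | h
      · by_cases hγ : γ' = γ
        · rw [hγ] at h
          exact Or.inl ⟨hγ, hb i v h⟩
        · exact Or.inr ⟨hγ, Or.inl ⟨h, hL _ _ _ h⟩⟩
      · rcases hE _ h with ⟨j, hj⟩ | ⟨γ'', hγ'', hj⟩
        · simp only [Atom.x.injEq] at hj
          obtain ⟨rfl, rfl, rfl⟩ := hj
          exact Or.inl ⟨rfl, rfl⟩
        · simp only [Atom.x.injEq] at hj
          obtain ⟨rfl, rfl, rfl⟩ := hj
          exact Or.inr ⟨hγ'', Or.inr ⟨rfl, rfl⟩⟩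
    obtain ⟨t₁, ht₁, ht₁'⟩ := ext_x t₀ E
      (by
        intro a ha
        rcases hE a ha with ⟨i, hi⟩ | ⟨γ', _, hi⟩
        · exact ⟨_, _, _, hi⟩
        · exact ⟨_, _, _, hi⟩)
      (by
        intro γ' i v v' h1 h2
        rcases hmem _ _ _ h1 with ⟨h1, h1'⟩ | ⟨h1, ⟨h1', h1''⟩ | ⟨h1', h1''⟩⟩ <;>
          rcases hmem _ _ _ h2 with ⟨h2, h2'⟩ | ⟨h2, ⟨h2', h2''⟩ | ⟨h2', h2''⟩⟩
        · rw [h1', h2']
        · exact absurd h1 h2
        · exact absurd h1 h2
        · exact absurd h2 h1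
        · exact t₀.cons.x _ _ _ _ h1' h2'
        · omega
        · exact absurd h2 h1
        · omega
        · rw [h1'', h2''])
    set s : List Bool := (List.range (L + 1)).map b with hs
    have hslen : s.length = L + 1 := by simp [hs]
    have hsget : ∀ i < L + 1, s.getD i false = b i := fun i hi => getD_map_range b (L + 1) i hi
    have hgt : ∀ ξ' γ' k, Atom.g ξ' γ' k ∈ t₁.1 → Atom.g ξ' γ' k ∈ t₀.1 := by
      intro ξ' γ' k h
      rw [ht₁'] at h
      rcases Finset.mem_union.1 h with h | h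
      · exact h
      · rcases hE _ h with ⟨_, h'⟩ | ⟨_, _, h'⟩ <;> exact absurd h' (by simp)
    have hgood : Good N (t₁.1 ∪ {Atom.f ξ s n}) := by
      refine good_sup t₁.2 Finset.subset_union_left ⟨?_, ?_, ?_⟩ ?_
      · intro γ' i v v' h1 h2
        simp only [Finset.mem_union, Finset.mem_singleton, reduceCtorEq, or_false] at h1 h2
        exact t₁.cons.x _ _ _ _ h1 h2
      · intro α β m m' h1 h2
        simp only [Finset.mem_union, Finset.mem_singleton, reduceCtorEq, or_false] at h1 h2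
        exact t₁.cons.h _ _ _ _ h1 h2
      · intro ξ' s' n' γ' k h1 h2 hk
        simp only [Finset.mem_union, Finset.mem_singleton, reduceCtorEq, or_false,
          Atom.f.injEq] at h1 h2 ⊢
        rcases h1 with h1 | ⟨rfl, rfl, rfl⟩
        · exact t₁.cons.f _ _ _ _ _ h1 h2 hk
        · have h3 := hgt _ _ _ h2
          by_cases hγ : γ' = γ
          · subst hγ
            exfalso
            obtain ⟨c, ⟨n'', hn'', j, hj⟩, hc, _⟩ := (good_iff.1 t₀.2).2 _ _ _ h3
            obtain ⟨a', ha', ha''⟩ := P1 _ _ _ _ hj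
            have h4 : t₀ ∈ meets (g γ' n'') := meets_down ha'' (by
              rw [Pos.le_def, ha']
              exact hc)
            have h5 : t₀ ∈ meets (g γ' n') := meets_down (hAM γ' n' ha) hta
            have h6 := uniq γ' n'' n' t₀ (ht₀.trans hr) h4 h5
            omega
          · refine ⟨L, by rw [hslen]; omega, ?_⟩
            rw [hsget L (by omega), ht₁']
            refine Finset.mem_union_right _ (Finset.mem_union_right _ ?_)
            exact Finset.mem_image.2 ⟨_, h3, if_neg hγ⟩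
      · intro ξ' γ' k h
        simp only [Finset.mem_union, Finset.mem_singleton, reduceCtorEq, or_false] at h
        exact h
    let t₂ : Pos N := ⟨_, hgood⟩
    have ht₂ : t₂ ≤ t₁ := Finset.subset_union_left
    refine ⟨t₂, ht₂.trans (ht₁.trans ht₀), n, ?_⟩
    · rw [mem_fex]
      intro v hv
      refine ⟨v, le_rfl, s, ?_, ?_, ?_⟩
      · exact meets_down (hAM γ n ha) ((hv.trans ht₂).trans (ht₁.trans hta))
      · exact meets_of_mem (show Atom.f ξ s n ∈ v.1 from
          hv (Finset.mem_union_right _ (Finset.mem_singleton_self _)))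
      · apply thru_of
        intro i hi
        rw [hslen] at hi
        rw [hsget i hi]
        refine hv (Finset.mem_union_left _ ?_)
        rw [ht₁']
        refine Finset.mem_union_right _ (Finset.mem_union_left _ ?_)
        exact Finset.mem_image.2 ⟨i, Finset.mem_range.2 hi, rfl⟩
  · rw [mem_fex]
    intro r hr
    obtain ⟨t₀, ht₀, n, a, ha, hta⟩ := dec γ r hr
    obtain ⟨L, _, hL⟩ := exists_fresh t₀.1
    obtain ⟨j, hj⟩ := P2 γ n a ha
    have hgood : Good N (t₀.1 ∪ {Atom.g ξ γ (max (n + 1) L)}) := by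
      refine good_iff.2 ⟨⟨?_, ?_, ?_⟩, ?_⟩
      · intro γ' i v v' h1 h2
        simp only [Finset.mem_union, Finset.mem_singleton, reduceCtorEq, or_false] at h1 h2
        exact t₀.cons.x _ _ _ _ h1 h2
      · intro α β m m' h1 h2
        simp only [Finset.mem_union, Finset.mem_singleton, reduceCtorEq, or_false] at h1 h2
        exact t₀.cons.h _ _ _ _ h1 h2
      · intro ξ' s' n' γ' k h1 h2 hk
        simp only [Finset.mem_union, Finset.mem_singleton, reduceCtorEq, or_false,
          Atom.g.injEq] at h1 h2 ⊢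
        rcases h2 with h2 | ⟨rfl, rfl, rfl⟩
        · exact t₀.cons.f _ _ _ _ _ h1 h2 hk
        · have := hL _ _ _ h1
          have h3 : L ≤ max (n + 1) L := le_max_right _ _
          omega
      · intro ξ' γ' k h
        simp only [Finset.mem_union, Finset.mem_singleton, Atom.g.injEq] at h
        rcases h with h | ⟨rfl, rfl, rfl⟩
        · obtain ⟨c, h1, h2, h3⟩ := (good_iff.1 t₀.2).2 _ _ _ h
          exact ⟨c, h1, h2.trans Finset.subset_union_left, h3⟩
        · exact ⟨a.1, ⟨n, lt_of_lt_of_le (Nat.lt_succ_self n) (le_max_left _ _), j, hj⟩,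
            Finset.Subset.trans hta Finset.subset_union_left, a.2⟩
    let t₂ : Pos N := ⟨_, hgood⟩
    have ht₂ : t₂ ≤ t₀ := Finset.subset_union_left
    refine ⟨t₂, ht₂.trans ht₀, max (n + 1) L, ?_⟩
    · intro n' hn' s v hv hv'
      obtain ⟨w, hw, w', hw', hww⟩ := hv'.1 v le_rfl
      have h1 : Atom.f ξ s n' ∈ w.1 := hww hw'
      have h2 : Atom.g ξ γ (max (n + 1) L) ∈ w.1 :=
        hw (hv (Finset.mem_union_right _ (Finset.mem_singleton_self _)))
      obtain ⟨i, hi, hi'⟩ := w.cons.f _ _ _ _ _ h1 h2 hn'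
      exact not_thru hi hi' (thru_down hv'.2 hw)

end Pool.Agent.Helper79K.DS
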