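import Mathlib
import Pool.Agent.Helper79K.DS.Basic

/-!
Preparations for the proof that the generic function has no expansion.
-/

set_option autoImplicit false

namespace Pool.Agent.Helper79K.DS

open Set TS.Forc Cardinal

theorem free_pair {L : Type} (hL : ℵ₁ < #L) (F : L → Set L) (hF : ∀ a, (F a).Countable) :
    ∃ a b, a ≠ b ∧ b ∉ F a ∧ a ∉ F b := by
  obtain ⟨A, hA⟩ := (Cardinal.le_mk_iff_exists_set (α := L) (c := ℵ₁)).1 hL.le
  have h1 : #((A ∪ ⋃ a : A, F a : Set L)) < #L := by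
    refine lt_of_le_of_lt ((Cardinal.mk_union_le _ _).trans ?_) hL
    refine Cardinal.add_le_of_le (Cardinal.aleph0_le_aleph 1) hA.le ?_
    refine (Cardinal.mk_iUnion_le _).trans ?_
    rw [hA]
    have h2 : (⨆ a : A, #(F a)) ≤ ℵ₁ := ciSup_le' fun a => (Cardinal.mk_le_aleph0_iff.2
      (hF a).to_subtype).trans (Cardinal.aleph0_le_aleph 1)
    refine (mul_le_mul' le_rfl h2).trans ?_
    exact (Cardinal.mul_eq_self (Cardinal.aleph0_le_aleph 1)).le
  obtain ⟨b, hb⟩ : ∃ b, b ∉ (A ∪ ⋃ a : A, F a : Set L) := by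
    by_contra hcon
    push Not at hcon
    have : (A ∪ ⋃ a : A, F a : Set L) = Set.univ := eq_univ_of_forall hcon
    rw [this, Cardinal.mk_univ] at h1
    exact lt_irrefl _ h1
  obtain ⟨a, haA, ha⟩ : ∃ a ∈ A, a ∉ F b := by
    by_contra hcon
    push Not at hcon
    have h2 : A.Countable := (hF b).mono hcon
    have h3 : #A ≤ ℵ₀ := Cardinal.mk_le_aleph0_iff.2 h2.to_subtype
    rw [hA] at h3
    exact absurd h3 (not_le.2 Cardinal.aleph0_lt_aleph_one)
  refine ⟨a, b, ?_, fun h => hb (mem_union_right _ (mem_iUnion.2 ⟨⟨a, haA⟩, h⟩)), ha⟩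
  rintro rfl
  exact hb (mem_union_left _ haA)

variable {K Λ : Type} {N : Nm K Λ}

theorem cons_sub {p q : Finset (Atom K Λ)} (hp : Cons p) (hqp : q ⊆ p)
    (hx : ∀ γ i b, Atom.x γ i b ∈ p → Atom.x γ i b ∈ q) : Cons q := by
  refine ⟨fun γ i b b' h h' => hp.x _ _ _ _ (hqp h) (hqp h'),
    fun α β m m' h h' => hp.h _ _ _ _ (hqp h) (hqp h'), fun ξ s n γ k h h' hk => ?_⟩
  obtain ⟨i, hi, hi'⟩ := hp.f _ _ _ _ _ (hqp h) (hqp h') hk
  exact ⟨i, hi, hx _ _ _ hi'⟩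

/-- the set of the arguments at which some of the conditions justifying promises about `α` in `S`
decide the generic function -/
def Dom (N : Nm K Λ) (S : Set Λ) (α : K) : Set (K × K) :=
  {z | ∃ ξ ∈ S, ∃ n j c m, N ξ α n j = some c ∧ Atom.h z.1 z.2 m ∈ c}

theorem countable_dom {S : Set Λ} (hS : S.Countable) (α : K) : (Dom N S α).Countable := by
  have h1 : Dom N S α ⊆ ⋃ ξ ∈ S, ⋃ (n : ℕ) (j : ℕ) (m : ℕ),
      {z : K × K | ∃ c, N ξ α n j = some c ∧ Atom.h z.1 z.2 m ∈ c} := by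
    rintro z ⟨ξ, hξ, n, j, c, m, h, h'⟩
    simp only [mem_iUnion]
    exact ⟨ξ, hξ, n, j, m, c, h, h'⟩
  refine Countable.mono h1 (hS.biUnion fun ξ _ => countable_iUnion fun n => countable_iUnion
    fun j => countable_iUnion fun m => ?_)
  cases hc : N ξ α n j with
  | none => simp
  | some c =>
    have h2 : {z : K × K | ∃ c', some c = some c' ∧ Atom.h z.1 z.2 m ∈ c'} =
        (fun z : K × K => (Atom.h z.1 z.2 m : Atom K Λ)) ⁻¹' (c : Set (Atom K Λ)) := by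
      ext z
      constructor
      · rintro ⟨c', h, h'⟩
        rw [← Option.some.inj h] at h'
        exact h'
      · intro h
        exact ⟨c, rfl, h⟩
    rw [h2]
    refine (c.countable_toSet).preimage_of_injOn ?_
    rintro ⟨a, b⟩ _ ⟨a', b'⟩ _ h
    simp only [Atom.h.injEq, and_true] at h
    exact Prod.ext h.1 h.2

theorem exists_core (q : Pos N) (S : Set Λ) (α β : K) (hα : (α, β) ∉ Dom N S α)
    (hβ : (α, β) ∉ Dom N S β) :
    ∃ E ⊆ q.1, (∀ γ i b, Atom.x γ i b ∈ q.1 → Atom.x γ i b ∈ E) ∧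
      (∀ ξ ∈ S, ∀ k, Atom.g ξ α k ∈ q.1 → Atom.g ξ α k ∈ E) ∧
      (∀ ξ ∈ S, ∀ k, Atom.g ξ β k ∈ q.1 → Atom.g ξ β k ∈ E) ∧
      (∀ m, Atom.h α β m ∉ E) ∧ Good N E := by
  classical
  have h1 : ∀ a ∈ q.1, ∃ c : Finset (Atom K Λ), ∀ ξ γ k, a = Atom.g ξ γ k →
      (∃ n < k, ∃ j, N ξ γ n j = some c) ∧ c ⊆ q.1 ∧ Good N c := by
    intro a ha
    cases a with
    | x _ _ _ => exact ⟨∅, fun _ _ _ h => absurd h (by simp)⟩
    | h _ _ _ => exact ⟨∅, fun _ _ _ h => absurd h (by simp)⟩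
    | f _ _ _ => exact ⟨∅, fun _ _ _ h => absurd h (by simp)⟩
    | g ξ γ k =>
      obtain ⟨c, hc⟩ := (good_iff.1 q.2).2 ξ γ k ha
      refine ⟨c, fun ξ' γ' k' h => ?_⟩
      simp only [Atom.g.injEq] at h
      obtain ⟨rfl, rfl, rfl⟩ := h
      exact hc
  choose! c hc using h1
  set G : Finset (Atom K Λ) := q.1.filter (fun a => ∃ ξ ∈ S, ∃ k, a = .g ξ α k ∨ a = .g ξ β k)
    with hG
  set X : Finset (Atom K Λ) := q.1.filter (fun a => ∃ γ i b, a = .x γ i b) with hX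
  have hGm : ∀ a ∈ G, a ∈ q.1 ∧ ∃ ξ ∈ S, ∃ k, a = .g ξ α k ∨ a = .g ξ β k := fun a ha =>
    Finset.mem_filter.1 ha
  have hcG : ∀ a ∈ G, (c a ⊆ q.1) ∧ Good N (c a) := by
    intro a ha
    obtain ⟨ha1, ξ, _, k, rfl | rfl⟩ := hGm a ha
    · exact (hc _ ha1 _ _ _ rfl).2
    · exact (hc _ ha1 _ _ _ rfl).2
  refine ⟨X ∪ G ∪ G.biUnion c, ?_, ?_, ?_, ?_, ?_, ?_⟩
  · intro a ha
    rcases Finset.mem_union.1 ha with ha | ha
    · rcases Finset.mem_union.1 ha with ha | ha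
      · exact (Finset.mem_filter.1 ha).1
      · exact (Finset.mem_filter.1 ha).1
    · obtain ⟨a', ha', ha''⟩ := Finset.mem_biUnion.1 ha
      exact (hcG a' ha').1 ha''
  · intro γ i b h
    exact Finset.mem_union_left _ (Finset.mem_union_left _ (Finset.mem_filter.2
      ⟨h, _, _, _, rfl⟩))
  · intro ξ hξ k h
    exact Finset.mem_union_left _ (Finset.mem_union_right _ (Finset.mem_filter.2
      ⟨h, ξ, hξ, k, Or.inl rfl⟩))
  · intro ξ hξ k h
    exact Finset.mem_union_left _ (Finset.mem_union_right _ (Finset.mem_filter.2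
      ⟨h, ξ, hξ, k, Or.inr rfl⟩))
  · intro m h
    rcases Finset.mem_union.1 h with h | h
    · rcases Finset.mem_union.1 h with h | h
      · obtain ⟨_, _, _, _, h'⟩ := Finset.mem_filter.1 h
        exact absurd h' (by simp)
      · obtain ⟨_, _, _, _, h' | h'⟩ := hGm _ h
        · exact absurd h' (by simp)
        · exact absurd h' (by simp)
    · obtain ⟨a', ha', ha''⟩ := Finset.mem_biUnion.1 h
      obtain ⟨ha1, ξ, hξ, k, rfl | rfl⟩ := hGm a' ha'
      · obtain ⟨⟨n, _, j, hj⟩, _⟩ := hc _ ha1 _ _ _ rfl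
        exact hα ⟨ξ, hξ, n, j, _, m, hj, ha''⟩
      · obtain ⟨⟨n, _, j, hj⟩, _⟩ := hc _ ha1 _ _ _ rfl
        exact hβ ⟨ξ, hξ, n, j, _, m, hj, ha''⟩
  · refine good_iff.2 ⟨cons_sub q.cons ?_ ?_, ?_⟩
    · intro a ha
      rcases Finset.mem_union.1 ha with ha | ha
      · rcases Finset.mem_union.1 ha with ha | ha
        · exact (Finset.mem_filter.1 ha).1
        · exact (Finset.mem_filter.1 ha).1
      · obtain ⟨a', ha', ha''⟩ := Finset.mem_biUnion.1 ha
        exact (hcG a' ha').1 ha''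
    · intro γ i b h
      exact Finset.mem_union_left _ (Finset.mem_union_left _ (Finset.mem_filter.2
        ⟨h, _, _, _, rfl⟩))
    · intro ξ γ k h
      rcases Finset.mem_union.1 h with h | h
      · rcases Finset.mem_union.1 h with h | h
        · obtain ⟨_, _, _, _, h'⟩ := Finset.mem_filter.1 h
          exact absurd h' (by simp)
        · obtain ⟨h1, _, h3⟩ := hc _ (hGm _ h).1 _ _ _ rfl
          exact ⟨_, h1, fun a ha => Finset.mem_union_right _ (Finset.mem_biUnion.2 ⟨_, h, ha⟩), h3⟩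
      · obtain ⟨a', ha', ha''⟩ := Finset.mem_biUnion.1 h
        obtain ⟨c', h1, h2, h3⟩ := (good_iff.1 (hcG a' ha').2).2 _ _ _ ha''
        exact ⟨c', h1, h2.trans fun a ha => Finset.mem_union_right _
          (Finset.mem_biUnion.2 ⟨_, ha', ha⟩), h3⟩

end Pool.Agent.Helper79K.DS
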