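import Mathlib
import Pool.Agent.Helper79K.DS.Free

/-!
The generic function has no point-finite open expansion on the square.
-/

set_option autoImplicit false

namespace Pool.Agent.Helper79K.DS

open Set TS.Forc Cardinal

variable {K Λ : Type} {N : Nm K Λ}

/-- copying the atoms `x` of a condition along a map of the index set -/
theorem exists_copy (q : Finset (Atom K Λ)) (α β α' β' : K) (ρ : K → K) (hα : ρ α = α')
    (hβ : ρ β = β') (hρ : ∀ γ, γ ≠ α → γ ≠ β → ρ γ = γ) :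
    ∃ τ : Finset (Atom K Λ), ∀ a, a ∈ τ ↔ ∃ γ i b, a = Atom.x γ i b ∧ Atom.x (ρ γ) i b ∈ q := by
  classical
  let mv : K → Atom K Λ → Atom K Λ := fun γ a => match a with
    | .x _ i b => .x γ i b
    | a => a
  have hfin : {a : Atom K Λ | ∃ γ i b, a = Atom.x γ i b ∧ Atom.x (ρ γ) i b ∈ q}.Finite := by
    refine Set.Finite.subset (s := ((q ∪ q.image (mv α) ∪ q.image (mv β) :
      Finset (Atom K Λ)) : Set (Atom K Λ))) (Finset.finite_toSet _) ?_
    rintro a ⟨γ, i, b, rfl, h⟩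
    by_cases h1 : γ = α
    · subst h1
      exact Finset.mem_union_left _ (Finset.mem_union_right _ (Finset.mem_image.2 ⟨_, h, rfl⟩))
    · by_cases h2 : γ = β
      · subst h2
        exact Finset.mem_union_right _ (Finset.mem_image.2 ⟨_, h, rfl⟩)
      · rw [hρ γ h1 h2] at h
        exact Finset.mem_union_left _ (Finset.mem_union_left _ h)
  exact ⟨hfin.toFinset, fun a => hfin.mem_toFinset⟩

/-- the amalgamation step -/
theorem amalgam {α β α' β' : K} (hαβ : α ≠ β) {S : Set Λ} {X : Set K}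
    (hα : α ∉ X) (hβ : β ∉ X) (p r q : Pos N)
    (hqp : q ≤ p) (hqr : q ≤ r)
    (hrX : ∀ γ i b, Atom.x γ i b ∈ r.1 → γ ∈ X)
    (hrG : ∀ ξ γ k, Atom.g ξ γ k ∈ r.1 → γ ∈ X)
    (hrS : ∀ ξ s n, Atom.f ξ s n ∈ r.1 → ξ ∈ S)
    (hxα : ∀ i b, Atom.x α i b ∈ p.1 → Atom.x α' i b ∈ q.1)
    (hxβ : ∀ i b, Atom.x β i b ∈ p.1 → Atom.x β' i b ∈ q.1)
    (hgα : ∀ ξ ∈ S, ∀ k, Atom.g ξ α k ∈ p.1 → Atom.g ξ α' k ∈ q.1)
    (hgβ : ∀ ξ ∈ S, ∀ k, Atom.g ξ β k ∈ p.1 → Atom.g ξ β' k ∈ q.1) :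
    ∃ t : Pos N, t ≤ p ∧ t ≤ r ∧ (∀ i b, Atom.x α' i b ∈ q.1 → Atom.x α i b ∈ t.1) ∧
      (∀ i b, Atom.x β' i b ∈ q.1 → Atom.x β i b ∈ t.1) := by
  classical
  let ρ : K → K := fun γ => if γ = α then α' else if γ = β then β' else γ
  have hρα : ρ α = α' := if_pos rfl
  have hρβ : ρ β = β' := by
    simp only [ρ]
    rw [if_neg hαβ.symm]
    simp
  have hρ : ∀ γ, γ ≠ α → γ ≠ β → ρ γ = γ := by
    intro γ h1 h2
    simp only [ρ]
    rw [if_neg h1, if_neg h2]
  have hρX : ∀ γ ∈ X, ρ γ = γ := by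
    intro γ hγ
    refine hρ γ ?_ ?_
    · rintro rfl
      exact hα hγ
    · rintro rfl
      exact hβ hγ
  obtain ⟨τ, hτ⟩ := exists_copy q.1 α β α' β' ρ hρα hρβ hρ
  have hτx : ∀ γ i b, Atom.x γ i b ∈ τ ↔ Atom.x (ρ γ) i b ∈ q.1 := by
    intro γ i b
    rw [hτ]
    constructor
    · rintro ⟨γ', i', b', h, h'⟩
      simp only [Atom.x.injEq] at h
      obtain ⟨rfl, rfl, rfl⟩ := h
      exact h'
    · intro h
      exact ⟨γ, i, b, rfl, h⟩
  have hx : ∀ γ i b, Atom.x γ i b ∈ p.1 ∪ r.1 ∪ τ → Atom.x (ρ γ) i b ∈ q.1 := by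
    intro γ i b h
    rcases Finset.mem_union.1 h with h | h
    · rcases Finset.mem_union.1 h with h | h
      · by_cases h1 : γ = α
        · subst h1
          rw [hρα]
          exact hxα i b h
        · by_cases h2 : γ = β
          · subst h2
            rw [hρβ]
            exact hxβ i b h
          · rw [hρ γ h1 h2]
            exact hqp h
      · rw [hρX γ (hrX _ _ _ h)]
        exact hqr h
    · exact (hτx γ i b).1 h
  have hh : ∀ a b m, Atom.h a b m ∈ p.1 ∪ r.1 ∪ τ → Atom.h a b m ∈ q.1 := by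
    intro a b m h
    rcases Finset.mem_union.1 h with h | h
    · rcases Finset.mem_union.1 h with h | h
      · exact hqp h
      · exact hqr h
    · obtain ⟨_, _, _, h', _⟩ := (hτ _).1 h
      exact absurd h' (by simp)
  have hf : ∀ ξ s n, Atom.f ξ s n ∈ p.1 ∪ r.1 ∪ τ → Atom.f ξ s n ∈ p.1 ∨ Atom.f ξ s n ∈ r.1 := by
    intro ξ s n h
    rcases Finset.mem_union.1 h with h | h
    · exact Finset.mem_union.1 h
    · obtain ⟨_, _, _, h', _⟩ := (hτ _).1 h
      exact absurd h' (by simp)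
  have hg : ∀ ξ γ k, Atom.g ξ γ k ∈ p.1 ∪ r.1 ∪ τ → Atom.g ξ γ k ∈ p.1 ∨ Atom.g ξ γ k ∈ r.1 := by
    intro ξ γ k h
    rcases Finset.mem_union.1 h with h | h
    · exact Finset.mem_union.1 h
    · obtain ⟨_, _, _, h', _⟩ := (hτ _).1 h
      exact absurd h' (by simp)
  have hcons : Cons (p.1 ∪ r.1 ∪ τ) := by
    refine ⟨fun γ i b b' h h' => q.cons.x _ _ _ _ (hx _ _ _ h) (hx _ _ _ h'),
      fun a b m m' h h' => q.cons.h _ _ _ _ (hh _ _ _ h) (hh _ _ _ h'), ?_⟩
    intro ξ s n γ k h1 h2 hk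
    have h3 := hf _ _ _ h1
    have h4 := hg _ _ _ h2
    have h5 : Atom.f ξ s n ∈ q.1 := by
      rcases h3 with h3 | h3
      · exact hqp h3
      · exact hqr h3
    have key : Atom.g ξ (ρ γ) k ∈ q.1 ∨ (Atom.f ξ s n ∈ p.1 ∧ Atom.g ξ γ k ∈ p.1) := by
      rcases h4 with h4 | h4
      · rcases h3 with h3 | h3
        · exact Or.inr ⟨h3, h4⟩
        · left
          by_cases h6 : γ = α
          · subst h6
            rw [hρα]
            exact hgα ξ (hrS _ _ _ h3) k h4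
          · by_cases h7 : γ = β
            · subst h7
              rw [hρβ]
              exact hgβ ξ (hrS _ _ _ h3) k h4
            · rw [hρ γ h6 h7]
              exact hqp h4
      · left
        rw [hρX γ (hrG _ _ _ h4)]
        exact hqr h4
    rcases key with key | ⟨h6, h7⟩
    · obtain ⟨i, hi, hi'⟩ := q.cons.f _ _ _ _ _ h5 key hk
      exact ⟨i, hi, Finset.mem_union_right _ ((hτx _ _ _).2 hi')⟩
    · obtain ⟨i, hi, hi'⟩ := p.cons.f _ _ _ _ _ h6 h7 hk
      exact ⟨i, hi, Finset.mem_union_left _ (Finset.mem_union_left _ hi')⟩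
  have hgood : Good N (p.1 ∪ r.1 ∪ τ) := by
    refine good_iff.2 ⟨hcons, fun ξ γ k h => ?_⟩
    rcases hg _ _ _ h with h | h
    · obtain ⟨c, h1, h2, h3⟩ := (good_iff.1 p.2).2 _ _ _ h
      exact ⟨c, h1, fun a ha => Finset.mem_union_left _ (Finset.mem_union_left _ (h2 ha)), h3⟩
    · obtain ⟨c, h1, h2, h3⟩ := (good_iff.1 r.2).2 _ _ _ h
      exact ⟨c, h1, fun a ha => Finset.mem_union_left _ (Finset.mem_union_right _ (h2 ha)), h3⟩
  refine ⟨⟨_, hgood⟩, ?_, ?_, ?_, ?_⟩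
  · exact fun a ha => Finset.mem_union_left _ (Finset.mem_union_left _ ha)
  · exact fun a ha => Finset.mem_union_left _ (Finset.mem_union_right _ ha)
  · intro i b h
    refine Finset.mem_union_right _ ((hτx _ _ _).2 ?_)
    rw [hρα]
    exact h
  · intro i b h
    refine Finset.mem_union_right _ ((hτx _ _ _).2 ?_)
    rw [hρβ]
    exact h

theorem not_exp2 {L : Type} (hL : ℵ₁ < #L) {N : Nm (L × L) Λ}
    (V : ℕ → List Bool → List Bool → Set (Pos N)) (p₀ : Pos N) :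
    p₀ ∉ Exp2N (xN N) (hN N) V := by
  classical
  intro h₀
  have hLc : ¬ (Set.univ : Set L).Countable := by
    intro h
    have h1 : #(Set.univ : Set L) ≤ ℵ₀ := Cardinal.mk_le_aleph0_iff.2 h.to_subtype
    rw [Cardinal.mk_univ] at h1
    exact absurd (hL.trans_le h1) (not_lt.2 (Cardinal.aleph0_le_aleph 1))
  -- the countable predense sets
  have h1 : ∀ n s t, ∃ A ⊆ {p : Pos N | p ∈ meets (V n s t)}, A.Countable ∧
      ∀ q ∈ {p : Pos N | p ∈ meets (V n s t)}, ∃ a ∈ A, ∃ r, r ≤ q ∧ r ≤ a :=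
    fun n s t => exists_predense _
  choose A hAM hAc hAd using h1
  set B : Set (Atom (L × L) Λ) := ⋃ (n : ℕ) (s : List Bool) (t : List Bool), ⋃ r ∈ A n s t,
    (r.1 : Set (Atom (L × L) Λ)) with hB
  have hBc : B.Countable := countable_iUnion fun n => countable_iUnion fun s => countable_iUnion
    fun t => (hAc n s t).biUnion fun r _ => r.1.countable_toSet
  have hBm : ∀ n s t, ∀ r ∈ A n s t, ∀ a ∈ r.1, a ∈ B := by
    intro n s t r hr a ha
    simp only [hB, mem_iUnion]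
    exact ⟨n, s, t, r, hr, ha⟩
  set S : Set Λ := ⋃ (s : List Bool) (n : ℕ), (fun ξ => (Atom.f ξ s n : Atom (L × L) Λ)) ⁻¹' B
    with hS
  have hSc : S.Countable := countable_iUnion fun s => countable_iUnion fun n =>
    hBc.preimage_of_injOn fun ξ _ ξ' _ h => by
      simp only [Atom.f.injEq, and_true] at h
      exact h
  set X : Set (L × L) := (⋃ (i : ℕ) (b : Bool), (fun γ => (Atom.x γ i b : Atom (L × L) Λ)) ⁻¹' B) ∪
    ⋃ (a : B) (k : ℕ), {γ | ∃ ξ, a.1 = Atom.g ξ γ k} with hX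
  have : Countable B := hBc.to_subtype
  have hXc : X.Countable := by
    refine (countable_iUnion fun i => countable_iUnion fun b =>
      hBc.preimage_of_injOn fun ξ _ ξ' _ h => ?_).union
      (countable_iUnion fun a => countable_iUnion fun k => ?_)
    · simp only [Atom.x.injEq, and_true] at h
      exact h
    · refine Set.Subsingleton.countable ?_
      rintro γ ⟨ξ, h⟩ γ' ⟨ξ', h'⟩
      rw [h] at h'
      simp only [Atom.g.injEq] at h'
      exact h'.2.1
  -- the pairs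
  have h2 : ∀ i : L, ∃ a b : L, a ≠ b ∧ ((i, a), (i, b)) ∉ Dom N S (i, a) ∧
      ((i, a), (i, b)) ∉ Dom N S (i, b) := by
    intro i
    obtain ⟨a, b, hab, h, h'⟩ := free_pair hL
      (fun a => {b | ((i, a), (i, b)) ∈ Dom N S (i, a)} ∪ {b | ((i, b), (i, a)) ∈ Dom N S (i, a)})
      (by
        intro a
        refine Set.Countable.union ?_ ?_
        · refine (countable_dom hSc (i, a)).preimage_of_injOn (f := fun b => ((i, a), (i, b))) ?_
          intro b _ b' _ h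
          simpa using h
        · refine (countable_dom hSc (i, a)).preimage_of_injOn (f := fun b => ((i, b), (i, a))) ?_
          intro b _ b' _ h
          simpa using h)
    refine ⟨a, b, hab, fun h3 => h (Or.inl h3), fun h3 => h' (Or.inr h3)⟩
  choose a b hab hDa hDb using h2
  set α : L → L × L := fun i => (i, a i) with hα
  set β : L → L × L := fun i => (i, b i) with hβ
  have hαinj : Function.Injective α := fun i j h => (Prod.ext_iff.1 h).1
  have hβinj : Function.Injective β := fun i j h => (Prod.ext_iff.1 h).1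
  have hαβ : ∀ i, α i ≠ β i := fun i h => hab i (Prod.ext_iff.1 h).2
  -- conditions deciding the bounds
  have h3 : ∀ i, ∃ p ≤ p₀, ∃ k : ℕ, p ∈ (fall fun n : ℕ => fall fun _ : k ≤ n =>
      fall fun s : List Bool => fall fun t : List Bool =>
        fnot (fand (meets (V n s t)) (fand (ThruN (xN N (α i)) s) (ThruN (xN N (β i)) t))) :
        Set (Pos N)) :=
    fun i => mem_fex.1 (h₀ (α i) (β i)).2 p₀ le_rfl
  choose p hp₀ k hpk using h3
  have hSc' : Countable {z : Λ × ℕ // z.1 ∈ S} := by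
    have : Countable S := hSc.to_subtype
    refine Function.Injective.countable (β := S × ℕ) (f := fun z => (⟨z.1.1, z.2⟩, z.1.2)) ?_
    rintro ⟨⟨ξ, k⟩, _⟩ ⟨⟨ξ', k'⟩, _⟩ h
    simp only [Prod.mk.injEq, Subtype.mk.injEq] at h
    exact Subtype.ext (Prod.ext h.1 h.2)
  obtain ⟨⟨k₀, xa, xb, ga, gb⟩, hd⟩ := exists_fiber hLc (fun i => (k i, xInfo (p i).1 (α i),
    xInfo (p i).1 (β i), gInfo (p i).1 (α i) S, gInfo (p i).1 (β i) S))
  obtain ⟨S₂, hS₂, hS₂c, hal⟩ := knaster_al (fun i => (p i).1) _ hd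
  have hinfo : ∀ i ∈ S₂, k i = k₀ ∧ xInfo (p i).1 (α i) = xa ∧ xInfo (p i).1 (β i) = xb ∧
      gInfo (p i).1 (α i) S = ga ∧ gInfo (p i).1 (β i) S = gb := by
    intro i hi
    have := (hS₂ hi).2
    simpa only [Prod.mk.injEq] using this
  -- the choice of `j`
  obtain ⟨j, hj, hjα, hjβ⟩ : ∃ j ∈ S₂, α j ∉ X ∧ β j ∉ X := by
    by_contra hcon
    push Not at hcon
    apply hS₂c
    refine ((hXc.preimage hαinj).union (hXc.preimage hβinj)).mono fun j hj => ?_
    by_cases h : α j ∈ X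
    · exact Or.inl h
    · exact Or.inr (hcon j hj h)
  obtain ⟨i, hi, hij⟩ : ∃ i ∈ S₂, ∀ m, Atom.h (α i) (β i) m ∉ (p j).1 := by
    by_contra hcon
    push Not at hcon
    apply hS₂c
    have h4 : (⋃ m : ℕ, (fun i => (Atom.h (α i) (β i) m : Atom (L × L) Λ)) ⁻¹'
        ((p j).1 : Set (Atom (L × L) Λ))).Countable :=
      countable_iUnion fun m => (p j).1.countable_toSet.preimage_of_injOn fun i _ i' _ h => by
        simp only [Atom.h.injEq, and_true] at h
        exact hαinj h.1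
    refine h4.mono fun i hi => ?_
    obtain ⟨m, hm⟩ := hcon i hi
    exact mem_iUnion.2 ⟨m, hm⟩
  obtain ⟨E, hEp, hEx, hEα, hEβ, hEh, hEg⟩ := exists_core (p i) S (α i) (β i) (hDa i) (hDb i)
  have hcij : Cons ((p i).1 ∪ (p j).1) := cons_union (p i).cons (p j).cons (hal i hi j hj)
  have hEj : Good N (E ∪ (p j).1) := by
    refine good_union hEg (p j).2 (cons_sub hcij (Finset.union_subset_union_left hEp) ?_)
    intro γ i' b' h
    rcases Finset.mem_union.1 h with h | h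
    · exact Finset.mem_union_left _ (hEx _ _ _ h)
    · exact Finset.mem_union_right _ h
  let p' : Pos N := ⟨E ∪ (p j).1, hEj⟩
  have hp'j : p' ≤ p j := Finset.subset_union_right
  -- the claim
  have claim : ∀ n, k₀ ≤ n → ∀ s t, ∀ q ≤ p', ¬ (q ∈ meets (V n s t) ∧ q ∈ ThruN (xN N (α i)) s ∧
      q ∈ ThruN (xN N (β i)) t) := by
    rintro n hn s t q hq ⟨hqV, hqs, hqt⟩
    obtain ⟨r, hr, q₁, hq₁, hq₁r⟩ := hAd n s t q hqV
    obtain ⟨q₂, hq₂, hq₂s⟩ := exists_thru (thru_down hqs hq₁)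
    obtain ⟨q₃, hq₃, hq₃t⟩ := exists_thru (thru_down (thru_down hqt hq₁) hq₂)
    have hq₃p' : q₃ ≤ p' := hq₃.trans (hq₂.trans (hq₁.trans hq))
    have hrX : ∀ γ i b, Atom.x γ i b ∈ r.1 → γ ∈ X := by
      intro γ i' b' h
      refine Or.inl (mem_iUnion₂.2 ⟨i', b', ?_⟩)
      exact hBm n s t r hr _ h
    have hrG : ∀ ξ γ k, Atom.g ξ γ k ∈ r.1 → γ ∈ X := by
      intro ξ γ m h
      exact Or.inr (mem_iUnion₂.2 ⟨⟨_, hBm n s t r hr _ h⟩, m, ξ, rfl⟩)
    have hrS : ∀ ξ s n, Atom.f ξ s n ∈ r.1 → ξ ∈ S := by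
      intro ξ s' n' h
      exact mem_iUnion₂.2 ⟨s', n', hBm n s t r hr _ h⟩
    have hxα : ∀ i' b, Atom.x (α j) i' b ∈ (p j).1 → Atom.x (α i) i' b ∈ q₃.1 := by
      intro i' b' h
      refine hq₃p' (Finset.mem_union_left _ (hEx _ _ _ ?_))
      rw [← mem_xInfo, (hinfo i hi).2.1, ← (hinfo j hj).2.1, mem_xInfo]
      exact h
    have hxβ : ∀ i' b, Atom.x (β j) i' b ∈ (p j).1 → Atom.x (β i) i' b ∈ q₃.1 := by
      intro i' b' h
      refine hq₃p' (Finset.mem_union_left _ (hEx _ _ _ ?_))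
      rw [← mem_xInfo, (hinfo i hi).2.2.1, ← (hinfo j hj).2.2.1, mem_xInfo]
      exact h
    have hgα : ∀ ξ ∈ S, ∀ k, Atom.g ξ (α j) k ∈ (p j).1 → Atom.g ξ (α i) k ∈ q₃.1 := by
      intro ξ hξ m h
      refine hq₃p' (Finset.mem_union_left _ (hEα ξ hξ m ?_))
      rw [← mem_gInfo hξ, (hinfo i hi).2.2.2.1, ← (hinfo j hj).2.2.2.1, mem_gInfo hξ]
      exact h
    have hgβ : ∀ ξ ∈ S, ∀ k, Atom.g ξ (β j) k ∈ (p j).1 → Atom.g ξ (β i) k ∈ q₃.1 := by
      intro ξ hξ m h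
      refine hq₃p' (Finset.mem_union_left _ (hEβ ξ hξ m ?_))
      rw [← mem_gInfo hξ, (hinfo i hi).2.2.2.2, ← (hinfo j hj).2.2.2.2, mem_gInfo hξ]
      exact h
    obtain ⟨u, hup, hur, huα, huβ⟩ := amalgam (hαβ j) hjα hjβ (p j) r q₃ (hq₃p'.trans hp'j)
      (hq₃.trans (hq₂.trans hq₁r)) hrX hrG hrS hxα hxβ hgα hgβ
    have hku : k j ≤ n := by
      rw [(hinfo j hj).1]
      exact hn
    refine hpk j n hku s t u hup ⟨meets_down (hAM n s t hr) hur, thru_of ?_, thru_of ?_⟩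
    · intro i' hi'
      exact huα _ _ (hq₃ (hq₂s i' hi'))
    · intro i' hi'
      exact huβ _ _ (hq₃t i' hi')
  -- the final contradiction
  have hfin : Good N (p'.1 ∪ {Atom.h (α i) (β i) k₀}) := by
    have hno : ∀ m, Atom.h (α i) (β i) m ∉ p'.1 := by
      intro m h
      rcases Finset.mem_union.1 h with h | h
      · exact hEh m h
      · exact hij m h
    refine good_sup p'.2 Finset.subset_union_left ⟨?_, ?_, ?_⟩ ?_
    · intro γ i b b' h1 h2
      simp only [Finset.mem_union, Finset.mem_singleton, reduceCtorEq, or_false] at h1 h2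
      exact p'.cons.x _ _ _ _ h1 h2
    · intro α' β' m m' h1 h2
      simp only [Finset.mem_union, Finset.mem_singleton, Atom.h.injEq] at h1 h2
      rcases h1 with h1 | ⟨h3, h4, h5⟩ <;> rcases h2 with h2 | ⟨h6, h7, h8⟩
      · exact p'.cons.h _ _ _ _ h1 h2
      · rw [h6, h7] at h1
        exact absurd h1 (hno _)
      · rw [h3, h4] at h2
        exact absurd h2 (hno _)
      · rw [h5, h8]
    · intro ξ s n γ k' h1 h2 hk
      simp only [Finset.mem_union, Finset.mem_singleton, reduceCtorEq, or_false] at h1 h2 ⊢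
      exact p'.cons.f _ _ _ _ _ h1 h2 hk
    · intro ξ γ k' h
      simp only [Finset.mem_union, Finset.mem_singleton, reduceCtorEq, or_false] at h
      exact h
  let p'' : Pos N := ⟨_, hfin⟩
  have hp'' : p'' ≤ p' := Finset.subset_union_left
  have hp''h : Atom.h (α i) (β i) k₀ ∈ p''.1 :=
    Finset.mem_union_right _ (Finset.mem_singleton_self _)
  obtain ⟨r₁, hr₁, n, hn⟩ := mem_fex.1 (h₀ (α i) (β i)).1 p'' (hp''.trans (hp'j.trans (hp₀ j)))
  obtain ⟨r₂, hr₂, s, hs⟩ := mem_fex.1 hn r₁ le_rfl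
  obtain ⟨r₃, hr₃, t, ht⟩ := mem_fex.1 hs r₂ le_rfl
  have h5 : k₀ = n := eq_of_meets_hN (hr₃ (hr₂ (hr₁ hp''h))) ht.1
  exact claim n h5.le s t r₃ (hr₃.trans (hr₂.trans (hr₁.trans hp''))) ht.2

end Pool.Agent.Helper79K.DS
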