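import Mathlib
import Pool.Agent.Helper79K.DS.Expand
import Pool.Agent.Helper79K.DS.Main
import Pool.Agent.Helper79K.DS.Enum

/-!
The principle is forced.
-/

set_option autoImplicit false

namespace Pool.Agent.Helper79K.DS

open TS.Forc Cardinal

theorem prin_forced {L : Type} (hL : ℵ₁ < #L) {Λ : Type} {N : Nm (L × L) Λ}
    (hs : Function.Surjective N) (p : Pos N) : p ∈ PrinN (Pos N) (L × L) := by
  rw [PrinN, mem_fex]
  intro q _
  refine ⟨q, le_rfl, xN N, ?_⟩
  rw [mem_fex]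
  intro q' _
  refine ⟨q', le_rfl, hN N, ?_, ?_, ?_, ?_⟩
  · intro α β hαβ
    exact ne_forced q' hαβ
  · intro α
    exact isFun_hN q' α
  · intro g
    rw [mem_fimp]
    intro r _ hr
    refine ⟨r, le_rfl, ?_⟩
    rw [mem_fex]
    intro r' hr'
    obtain ⟨U, hU⟩ := exp_forced hs g hr
    exact ⟨r', le_rfl, U, fun γ => ⟨fex_down (hU γ).1 hr', fex_down (hU γ).2 hr'⟩⟩
  · rw [mem_fnot]
    intro r _ hr
    obtain ⟨r', _, V, hV⟩ := mem_fex.1 hr r le_rfl
    exact not_exp2 hL V r' hV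

end Pool.Agent.Helper79K.DS
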