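import Mathlib
import Pool.Agent.Helper79K.DS.Sent

/-!
For the trivial forcing notion the forcing version of the principle is equivalent to the principle
itself.
-/

set_option autoImplicit false

namespace Pool.Agent.Helper79K.DS

open TS.Forc

variable {P : Type} [Preorder P] [Subsingleton P]

theorem triv_fnot {φ : Set P} {p : P} : p ∈ fnot φ ↔ p ∉ φ := by
  constructor
  · intro h
    exact h p le_rfl
  · intro h q _ hq
    rw [Subsingleton.elim p q] at h
    exact h hq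

omit [Preorder P] [Subsingleton P] in
theorem triv_fand {φ ψ : Set P} {p : P} : p ∈ fand φ ψ ↔ p ∈ φ ∧ p ∈ ψ := Iff.rfl

omit [Preorder P] [Subsingleton P] in
theorem triv_fall {ι : Sort*} {φ : ι → Set P} {p : P} : p ∈ fall φ ↔ ∀ i, p ∈ φ i := Iff.rfl

theorem triv_fimp {φ ψ : Set P} {p : P} : p ∈ fimp φ ψ ↔ (p ∈ φ → p ∈ ψ) := by
  rw [fimp, triv_fnot, triv_fand, triv_fnot]
  tauto

theorem triv_fex {ι : Sort*} {φ : ι → Set P} {p : P} : p ∈ fex φ ↔ ∃ i, p ∈ φ i := by
  rw [fex, triv_fnot, triv_fall]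
  simp only [triv_fnot, not_forall, not_not]

theorem triv_fiff {φ ψ : Set P} {p : P} : p ∈ fiff φ ψ ↔ (p ∈ φ ↔ p ∈ ψ) := by
  rw [fiff, triv_fand, triv_fimp, triv_fimp]
  tauto

omit [Preorder P] [Subsingleton P] in
theorem triv_fground {h : Prop} {p : P} : p ∈ (fground h : Set P) ↔ h := Iff.rfl

theorem triv_meets {N : Set P} {p : P} : p ∈ meets N ↔ p ∈ N := by
  constructor
  · intro h
    obtain ⟨r, _, s, hs, _⟩ := h p le_rfl
    rwa [Subsingleton.elim p s]
  · exact meets_of_mem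

theorem triv_thru {z : ℕ → Set P} {u : List Bool} {p : P} :
    p ∈ ThruN z u ↔ Thru (fun n => p ∈ z n) u := by
  simp only [ThruN, Thru, triv_fall, triv_fiff, triv_meets, triv_fground]

theorem triv_isFun {K : Type} {g : K → ℕ → Set P} {p : P} :
    p ∈ IsFunN g ↔ IsFun fun γ n => p ∈ g γ n := by
  simp only [IsFunN, IsFun, triv_fall, triv_fand, triv_fex, triv_meets, triv_fimp, triv_fground]

theorem triv_exp1 {K : Type} {x : K → ℕ → Set P} {g : K → ℕ → Set P}
    {U : ℕ → List Bool → Set P} {p : P} : p ∈ Exp1N x g U ↔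
      Exp1 (fun γ i => p ∈ x γ i) (fun γ n => p ∈ g γ n) fun n s => p ∈ U n s := by
  simp only [Exp1N, Exp1, triv_fall, triv_fand, triv_fex, triv_meets, triv_fnot, triv_thru]

theorem triv_exp2 {K : Type} {x : K → ℕ → Set P} {h : K → K → ℕ → Set P}
    {V : ℕ → List Bool → List Bool → Set P} {p : P} : p ∈ Exp2N x h V ↔
      Exp2 (fun γ i => p ∈ x γ i) (fun α β n => p ∈ h α β n) fun n s t => p ∈ V n s t := by
  simp only [Exp2N, Exp2, triv_fall, triv_fand, triv_fex, triv_meets, triv_fnot, triv_thru]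

theorem triv_prin {K : Type} {p : P} : p ∈ PrinN P K ↔ Prin K := by
  simp only [PrinN, Prin, triv_fall, triv_fex, triv_fimp, triv_fnot, triv_fand, triv_meets,
    triv_fiff, triv_isFun, triv_exp1, triv_exp2]
  constructor
  · rintro ⟨x, h, h1, h2, h3, h4⟩
    refine ⟨fun γ i => p ∈ x γ i, fun α β n => p ∈ h α β n, h1, h2, fun g hg => ?_, ?_⟩
    · obtain ⟨U, hU⟩ := h3 (fun γ n => {_q | g γ n}) hg
      exact ⟨fun n s => p ∈ U n s, hU⟩
    · rintro ⟨V, hV⟩
      exact h4 ⟨fun n s t => {_q | V n s t}, hV⟩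
  · rintro ⟨x, h, h1, h2, h3, h4⟩
    refine ⟨fun γ i => {_q | x γ i}, fun α β n => {_q | h α β n}, h1, h2, fun g hg => ?_, ?_⟩
    · obtain ⟨U, hU⟩ := h3 (fun γ n => p ∈ g γ n) hg
      exact ⟨fun n s => {_q | U n s}, hU⟩
    · rintro ⟨V, hV⟩
      exact h4 ⟨fun n s t => p ∈ V n s t, hV⟩

end Pool.Agent.Helper79K.DS
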