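import Mathlib
import Pool.Agent.Helper79K.DS.Sent

/-!
The principle gives a `Δ`-set of reals whose square is not a `Δ`-set.
-/

set_option autoImplicit false

namespace Pool.Agent.Helper79K.DS

/-- The space `Z` is a `Δ`-space: for every partition of `Z` into the sets `A n` (some of which may
be empty) there are open sets `U n` which contain the sets `A n` and are such that every point is in
only finitely many of them. -/
def IsDelta (Z : Type) [TopologicalSpace Z] : Prop :=
  ∀ A : ℕ → Set Z, (∀ m n, m ≠ n → Disjoint (A m) (A n)) → (⋃ n, A n) = Set.univ →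
    ∃ U : ℕ → Set Z, (∀ n, IsOpen (U n) ∧ A n ⊆ U n) ∧ ∀ z, {n | z ∈ U n}.Finite

open Set

/-- the points of the Cantor set with a given initial segment -/
def Cyl (s : List Bool) : Set (ℕ → Bool) := {w | ∀ i < s.length, w i = s.getD i false}

theorem isOpen_cyl (s : List Bool) : IsOpen (Cyl s) := by
  have h1 : Cyl s = ⋂ i ∈ Finset.range s.length, {w : ℕ → Bool | w i = s.getD i false} := by
    ext w
    simp [Cyl]
  rw [h1]
  refine isOpen_biInter_finset fun i _ => ?_
  exact (isOpen_discrete ({s.getD i false} : Set Bool)).preimage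
    (continuous_apply i : Continuous fun w : ℕ → Bool => w i)

theorem exists_cyl {O : Set (ℕ → Bool)} (hO : IsOpen O) {w : ℕ → Bool} (hw : w ∈ O) :
    ∃ s, w ∈ Cyl s ∧ Cyl s ⊆ O := by
  rw [isOpen_pi_iff] at hO
  obtain ⟨I, u, hu, hI⟩ := hO w hw
  have hget : ∀ n, ∀ i < n, ((List.range n).map w).getD i false = w i := by
    intro n i hi
    rw [List.getD_eq_getElem _ _ (by simpa using hi)]
    simp
  refine ⟨(List.range (I.sup id + 1)).map w, ?_, ?_⟩
  · intro i hi
    exact (hget _ i (by simpa using hi)).symm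
  · intro v hv
    apply hI
    intro i hi
    have h1 : i < I.sup id + 1 := Nat.lt_succ_of_le (Finset.le_sup (f := id) hi)
    have h2 := hv i (by simpa using h1)
    rw [hget _ i h1] at h2
    rw [h2]
    exact (hu i hi).2

/-- the embedding of the Cantor space into the real line -/
noncomputable def emb (w : ℕ → Bool) : ℝ := (cantorSetHomeomorphNatToBool.symm w : ℝ)

theorem isEmbedding_emb : Topology.IsEmbedding emb :=
  Topology.IsEmbedding.subtypeVal.comp cantorSetHomeomorphNatToBool.symm.isEmbedding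

theorem of_prin {K : Type} (h : Prin K) :
    ∃ X : Set ℝ, IsDelta X ∧ ¬ IsDelta (X ×ˢ X : Set (ℝ × ℝ)) := by
  classical
  obtain ⟨x, h, hx, hh, hg, hV⟩ := h
  let c : K → ℕ → Bool := fun γ i => decide (x γ i)
  have hc : ∀ γ s, c γ ∈ Cyl s ↔ Thru (x γ) s := by
    intro γ s
    refine forall₂_congr fun i _ => ?_
    cases hb : s.getD i false
    · simp [c]
    · simp [c]
  let y : K → ℝ := fun γ => emb (c γ)
  have hy : Function.Injective y := by
    intro α β hαβ
    by_contra hne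
    obtain ⟨i, hi⟩ := hx α β hne
    apply hi
    have h1 := congrFun (isEmbedding_emb.injective hαβ) i
    exact decide_eq_decide.1 h1
  refine ⟨range y, ?_, ?_⟩
  · intro A hA hA'
    let g : K → ℕ → Prop := fun γ n => (⟨y γ, mem_range_self γ⟩ : range y) ∈ A n
    have hgf : IsFun g := by
      constructor
      · intro γ
        have h1 : (⟨y γ, mem_range_self γ⟩ : range y) ∈ ⋃ n, A n := by
          rw [hA']
          exact mem_univ _
        exact mem_iUnion.1 h1
      · rintro γ m n ⟨h1, h2⟩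
        by_contra hmn
        exact disjoint_left.1 (hA m n hmn) h1 h2
    obtain ⟨U, hU⟩ := hg g hgf
    have h1 : ∀ n, ∃ O : Set ℝ, IsOpen O ∧ emb ⁻¹' O = ⋃ s ∈ {s | U n s}, Cyl s := by
      intro n
      exact isEmbedding_emb.isOpen_iff.1 (isOpen_biUnion fun s _ => isOpen_cyl s)
    choose O hO hO' using h1
    have hmem : ∀ n γ, y γ ∈ O n ↔ ∃ s, U n s ∧ Thru (x γ) s := by
      intro n γ
      have h2 : y γ ∈ O n ↔ c γ ∈ emb ⁻¹' (O n) := Iff.rfl
      rw [h2, hO']
      simp only [mem_iUnion, mem_ofPred_eq, exists_prop, hc]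
    refine ⟨fun n => Subtype.val ⁻¹' (O n), fun n => ⟨(hO n).preimage continuous_subtype_val, ?_⟩, ?_⟩
    · rintro ⟨_, γ, rfl⟩ hz
      obtain ⟨⟨n', s, h1, h2, h3⟩, _⟩ := hU γ
      have h4 : n' = n := hgf.2 γ n' n ⟨h1, hz⟩
      rw [h4] at h2
      exact (hmem n γ).2 ⟨s, h2, h3⟩
    · rintro ⟨_, γ, rfl⟩
      obtain ⟨_, k, hk⟩ := hU γ
      refine (Set.finite_lt_nat k).subset fun n hn => ?_
      by_contra hcon
      obtain ⟨s, hs⟩ := (hmem n γ).1 hn
      exact hk n (not_lt.1 hcon) s hs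
  · intro hD
    apply hV
    have hym : ∀ α β, (y α, y β) ∈ (range y ×ˢ range y : Set (ℝ × ℝ)) :=
      fun α β => ⟨mem_range_self α, mem_range_self β⟩
    obtain ⟨W, hW, hWf⟩ := hD (fun n => {z | ∃ α β, h α β n ∧ z.1 = (y α, y β)})
      (by
        intro m n hmn
        rw [disjoint_left]
        rintro z ⟨α, β, h1, h2⟩ ⟨α', β', h3, h4⟩
        rw [h2, Prod.mk.injEq] at h4
        obtain ⟨h5, h6⟩ := h4
        rw [← hy h5, ← hy h6] at h3
        exact hmn ((hh α).2 β m n ⟨h1, h3⟩))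
      (by
        refine eq_univ_of_forall ?_
        rintro ⟨⟨z, z'⟩, ⟨α, hα⟩, ⟨β, hβ⟩⟩
        obtain ⟨n, hn⟩ := (hh α).1 β
        exact mem_iUnion.2 ⟨n, α, β, hn, Prod.ext hα.symm hβ.symm⟩)
    have h1 : ∀ n, ∃ O : Set (ℝ × ℝ), IsOpen O ∧ Subtype.val ⁻¹' O = W n :=
      fun n => isOpen_induced_iff.1 (hW n).1
    choose O hO hO' using h1
    refine ⟨fun n s t => ∀ w ∈ Cyl s, ∀ w' ∈ Cyl t, (emb w, emb w') ∈ O n, fun α β => ⟨?_, ?_⟩⟩
    · obtain ⟨n, hn⟩ := (hh α).1 β
      have h2 : (⟨(y α, y β), hym α β⟩ : (range y ×ˢ range y : Set (ℝ × ℝ))) ∈ W n :=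
        (hW n).2 ⟨α, β, hn, rfl⟩
      rw [← hO'] at h2
      have h3 : IsOpen ((Prod.map emb emb) ⁻¹' (O n)) :=
        (hO n).preimage (isEmbedding_emb.continuous.prodMap isEmbedding_emb.continuous)
      rw [isOpen_prod_iff] at h3
      obtain ⟨u, v, hu, hv, hu', hv', huv⟩ := h3 (c α) (c β) h2
      obtain ⟨s, hs, hs'⟩ := exists_cyl hu hu'
      obtain ⟨t, ht, ht'⟩ := exists_cyl hv hv'
      exact ⟨n, s, t, hn, fun w hw w' hw' => huv (Set.mk_mem_prod (hs' hw) (ht' hw')),
        (hc α s).1 hs, (hc β t).1 ht⟩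
    · obtain ⟨k, hk⟩ := (hWf ⟨(y α, y β), hym α β⟩).bddAbove
      refine ⟨k + 1, fun n hn s t hst => ?_⟩
      have h2 : (⟨(y α, y β), hym α β⟩ : (range y ×ˢ range y : Set (ℝ × ℝ))) ∈ W n := by
        rw [← hO']
        exact hst.1 _ ((hc α s).2 hst.2.1) _ ((hc β t).2 hst.2.2)
      have h3 : n ≤ k := hk h2
      omega

end Pool.Agent.Helper79K.DS
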